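import Pool.Agent.Q60.ZG.Galois
import Pool.Agent.Q5.RG.PQ

/-! Fields with noncyclic groups of automorphisms of order `p q`, and fields on which the complex
conjugations come from automorphisms. -/

set_option autoImplicit false

namespace Pool.Agent.Q60.ZG

open NumberField

variable {n : ℕ} {F : Type} [Field F] [NumberField F]

/-- a noncyclic group whose order is a product of two primes -/
def NoncyclicPQ (G : Type) [Group G] : Prop :=
  ¬ IsCyclic G ∧ ∃ p q : ℕ, p.Prime ∧ q.Prime ∧ Nat.card G = p * q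

open Classical in
/-- the sum over the translates under `B` -/
noncomputable def avg {A : Subgroup (F ≃ₐ[ℚ] F)} (B : Subgroup A) (f : (F →+* ℂ) → ℝ) :
    (F →+* ℂ) → ℝ := fun σ => ∑ g : A, if g ∈ B then f (act σ g) else 0

theorem avg_parity {A : Subgroup (F ≃ₐ[ℚ] F)} (B : Subgroup A) {f : (F →+* ℂ) → ℝ}
    (hf : Parity n f) : Parity n (avg B f) := by
  classical
  intro σ
  unfold avg
  rw [Finset.mul_sum]
  refine Finset.sum_congr rfl fun g _ => ?_
  rw [← act_conj, hf (act σ g)]
  split_ifs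
  · rfl
  · rw [mul_zero]

theorem avg_mul {A : Subgroup (F ≃ₐ[ℚ] F)} (B : Subgroup A) (f : (F →+* ℂ) → ℝ) (σ : F →+* ℂ)
    {g : A} (hg : g ∈ B) : avg B f (act σ g) = avg B f σ := by
  classical
  unfold avg
  refine Fintype.sum_equiv (Equiv.mulLeft g) _ _ fun h => ?_
  rw [act_mul, Equiv.coe_mulLeft]
  have h1 : (g * h ∈ B) ↔ h ∈ B := Subgroup.mul_mem_cancel_left B hg
  by_cases h2 : h ∈ B
  · rw [if_pos h2, if_pos (h1.2 h2)]
    rfl
  · rw [if_neg h2, if_neg (fun h3 => h2 (h1.1 h3))]

/-- **Noncyclic groups of order** `p q`. -/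
theorem spanned_pq (n : ℕ) (A : Subgroup (F ≃ₐ[ℚ] F)) (hA : NoncyclicPQ A) :
    Spanned n F {E | ∃ B : Subgroup (F ≃ₐ[ℚ] F), B ≤ A ∧ B ≠ ⊥ ∧
      E = IntermediateField.fixedField B} := by
  classical
  obtain ⟨hn, p, q, hp, hq, hc⟩ := hA
  obtain ⟨c, hc0, hc1⟩ := Pool.Agent.Q5.RG.spans_pq hp hq hc hn
  intro f hf
  have h1 : f = ∑ B : Subgroup A, (c B : ℝ) • avg B f := by
    funext σ
    rw [Finset.sum_apply]
    simp only [Pi.smul_apply, smul_eq_mul]
    unfold avg
    simp only [Finset.mul_sum]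
    rw [Finset.sum_comm]
    have h2 : ∀ g : A, ∑ B : Subgroup A, (c B : ℝ) * (if g ∈ B then f (act σ g) else 0) =
        (if g = 1 then f σ else 0) := by
      intro g
      have h3 : ∀ B : Subgroup A, (c B : ℝ) * (if g ∈ B then f (act σ g) else 0) =
          (((if g ∈ B then c B else 0 : ℚ)) : ℝ) * f (act σ g) := by
        intro B
        split_ifs
        · rfl
        · rw [mul_zero, Rat.cast_zero, zero_mul]
      simp only [h3]
      rw [← Finset.sum_mul, ← Rat.cast_sum]
      have h4 : ∑ B : Subgroup A, (if g ∈ B then c B else 0) = if g = 1 then 1 else 0 := by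
        convert hc1 g
      rw [h4]
      by_cases h5 : g = 1
      · rw [if_pos h5, if_pos h5, h5, Rat.cast_one, one_mul]
        change f σ = f (act σ 1)
        rw [act_one]
      · rw [if_neg h5, if_neg h5, Rat.cast_zero, zero_mul]
    rw [Finset.sum_congr rfl fun g _ => h2 g, Finset.sum_ite_eq' Finset.univ (1 : A),
      if_pos (Finset.mem_univ _)]
  rw [h1]
  refine Submodule.sum_mem _ fun B _ => ?_
  by_cases hB : c B = 0
  · rw [hB, Rat.cast_zero, zero_smul]
    exact Submodule.zero_mem _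
  · have hB' : B ≠ ⊥ := hc0 B hB
    refine Submodule.smul_mem _ _ (Submodule.subset_span ?_)
    have hE : IntermediateField.fixedField (B.map A.subtype) ∈
        {E : IntermediateField ℚ F | ∃ B : Subgroup (F ≃ₐ[ℚ] F), B ≤ A ∧ B ≠ ⊥ ∧
          E = IntermediateField.fixedField B} := by
      refine ⟨B.map A.subtype, ?_, ?_, rfl⟩
      · rintro _ ⟨g, _, rfl⟩
        exact g.2
      · intro h
        rw [Subgroup.map_eq_bot_iff, Subgroup.ker_subtype, le_bot_iff] at h
        exact hB' h
    refine fromOne_of_agree hE (avg_parity B hf) ?_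
    intro σ σ' hσ
    obtain ⟨_, ⟨g, hg, rfl⟩, rfl⟩ := exists_mem (B.map A.subtype) hσ
    exact (avg_mul B f σ hg).symm

open Classical in
/-- the characteristic function of `{σ, conj σ}`, with multiplicity -/
noncomputable def ind (σ : F →+* ℂ) : (F →+* ℂ) → ℝ := fun ρ =>
  (if ρ = σ then 1 else 0) + (if ρ = ComplexEmbedding.conjugate σ then 1 else 0)

theorem ind_parity (hn : Odd n) (σ : F →+* ℂ) : Parity n (ind σ) := by
  classical
  intro ρ
  have he : eps n = 1 := by
    unfold eps
    rw [if_pos hn]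
  rw [he, one_mul]
  unfold ind
  have h1 : (ComplexEmbedding.conjugate ρ = σ) ↔ ρ = ComplexEmbedding.conjugate σ := by
    constructor
    · rintro rfl
      exact (ComplexEmbedding.involutive_conjugate F ρ).symm
    · rintro rfl
      exact ComplexEmbedding.involutive_conjugate F σ
  have h2 : (ComplexEmbedding.conjugate ρ = ComplexEmbedding.conjugate σ) ↔ ρ = σ := by
    constructor
    · intro h
      exact (ComplexEmbedding.involutive_conjugate F).injective h
    · rintro rfl
      rfl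
  by_cases h3 : ρ = σ <;> by_cases h4 : ρ = ComplexEmbedding.conjugate σ
  · rw [if_pos (h1.2 h4), if_pos (h2.2 h3), if_pos h3, if_pos h4]
  · rw [if_neg (fun h => h4 (h1.1 h)), if_pos (h2.2 h3), if_pos h3, if_neg h4, add_comm]
  · rw [if_pos (h1.2 h4), if_neg (fun h => h3 (h2.1 h)), if_neg h3, if_pos h4, add_comm]
  · rw [if_neg (fun h => h4 (h1.1 h)), if_neg (fun h => h3 (h2.1 h)), if_neg h3, if_neg h4]

/-- **Odd weight, complex conjugations from automorphisms.** -/
theorem spanned_conj (hn : Odd n)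
    (h : ∀ σ : F →+* ℂ, ∃ c : F ≃ₐ[ℚ] F, c ≠ 1 ∧ ∀ x, (starRingEnd ℂ) (σ x) = σ (c x)) :
    Spanned n F {E | ∃ (σ : F →+* ℂ) (c : F ≃ₐ[ℚ] F), c ≠ 1 ∧
      (∀ x, (starRingEnd ℂ) (σ x) = σ (c x)) ∧
      E = IntermediateField.fixedField (Subgroup.zpowers c)} := by
  classical
  have he : eps n = 1 := by
    unfold eps
    rw [if_pos hn]
  intro f hf
  have h1 : f = (2 : ℝ)⁻¹ • ∑ σ : F →+* ℂ, f σ • ind σ := by
    funext ρ
    rw [Pi.smul_apply, Finset.sum_apply]
    simp only [Pi.smul_apply, smul_eq_mul]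
    unfold ind
    have h2 : ∀ σ : F →+* ℂ, f σ * ((if ρ = σ then 1 else 0) +
        (if ρ = ComplexEmbedding.conjugate σ then 1 else 0)) =
        (if ρ = σ then f σ else 0) + (if σ = ComplexEmbedding.conjugate ρ then f σ else 0) := by
      intro σ
      have h3 : (ρ = ComplexEmbedding.conjugate σ) ↔ σ = ComplexEmbedding.conjugate ρ := by
        constructor
        · rintro rfl
          exact (ComplexEmbedding.involutive_conjugate F σ).symm
        · rintro rfl
          exact (ComplexEmbedding.involutive_conjugate F ρ).symm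
      rw [mul_add]
      congr 1
      · split_ifs
        · rw [mul_one]
        · rw [mul_zero]
      · by_cases h4 : ρ = ComplexEmbedding.conjugate σ
        · rw [if_pos h4, if_pos (h3.1 h4), mul_one]
        · rw [if_neg h4, if_neg (fun h => h4 (h3.2 h)), mul_zero]
    rw [Finset.sum_congr rfl fun σ _ => h2 σ, Finset.sum_add_distrib,
      Finset.sum_ite_eq Finset.univ ρ, Finset.sum_ite_eq' Finset.univ (ComplexEmbedding.conjugate ρ),
      if_pos (Finset.mem_univ _), if_pos (Finset.mem_univ _), hf ρ, he]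
    ring
  rw [h1]
  refine Submodule.smul_mem _ _ (Submodule.sum_mem _ fun σ _ => Submodule.smul_mem _ _
    (Submodule.subset_span ?_))
  obtain ⟨c, hc1, hc⟩ := h σ
  have hE : IntermediateField.fixedField (Subgroup.zpowers c) ∈
      {E : IntermediateField ℚ F | ∃ (σ : F →+* ℂ) (c : F ≃ₐ[ℚ] F), c ≠ 1 ∧
        (∀ x, (starRingEnd ℂ) (σ x) = σ (c x)) ∧
        E = IntermediateField.fixedField (Subgroup.zpowers c)} := ⟨σ, c, hc1, hc, rfl⟩
  refine fromOne_of_agree hE (ind_parity hn σ) ?_
  intro ρ ρ' hρ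
  obtain ⟨g, hg, rfl⟩ := exists_mem (Subgroup.zpowers c) hρ
  have hcc : c * c = 1 := by
    apply AlgEquiv.ext
    intro x
    apply σ.injective
    rw [AlgEquiv.mul_apply, AlgEquiv.one_apply, ← hc, ← hc, Complex.conj_conj]
  have hσc : act σ c = ComplexEmbedding.conjugate σ := by
    ext x
    rw [act_apply, ← hc x]
    rfl
  have hσc' : act (ComplexEmbedding.conjugate σ) c = σ := by
    rw [← hσc, act_mul, hcc, act_one]
  have inj : ∀ ρ₁ ρ₂ : F →+* ℂ, act ρ₁ c = ρ₂ ↔ ρ₁ = act ρ₂ c := by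
    intro ρ₁ ρ₂
    constructor
    · rintro rfl
      rw [act_mul, hcc, act_one]
    · rintro rfl
      rw [act_mul, hcc, act_one]
  have key : ∀ ρ : F →+* ℂ, ind σ (act ρ c) = ind σ ρ := by
    intro ρ
    unfold ind
    have h5 : (act ρ c = σ) ↔ ρ = ComplexEmbedding.conjugate σ := by
      rw [inj, hσc]
    have h6 : (act ρ c = ComplexEmbedding.conjugate σ) ↔ ρ = σ := by
      rw [inj, hσc']
    by_cases h3 : ρ = σ <;> by_cases h4 : ρ = ComplexEmbedding.conjugate σ
    · rw [if_pos (h5.2 h4), if_pos (h6.2 h3), if_pos h3, if_pos h4]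
    · rw [if_neg (fun h => h4 (h5.1 h)), if_pos (h6.2 h3), if_pos h3, if_neg h4, add_comm]
    · rw [if_pos (h5.2 h4), if_neg (fun h => h3 (h6.1 h)), if_neg h3, if_pos h4, add_comm]
    · rw [if_neg (fun h => h4 (h5.1 h)), if_neg (fun h => h3 (h6.1 h)), if_neg h3, if_neg h4]
  have hg2 : g = 1 ∨ g = c := by
    obtain ⟨k, rfl⟩ := Subgroup.mem_zpowers_iff.1 hg
    rcases Int.even_or_odd' k with ⟨j, rfl | rfl⟩
    · left
      rw [zpow_mul, zpow_two, hcc, one_zpow]
    · right
      rw [zpow_add, zpow_mul, zpow_two, hcc, one_zpow, one_mul, zpow_one]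
  rcases hg2 with rfl | rfl
  · rw [act_one]
  · exact (key ρ).symm

end Pool.Agent.Q60.ZG
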