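import Mathlib

/-! The higher Bloch groups `𝓑_n(F)` (Goncharov): the relations `𝓡_n(F)`, the kernel of `δ_n` on
`ℤ[P¹(F)]`, and their functoriality in the field `F`. -/

set_option autoImplicit false

namespace Pool.Agent.Q60.ZG

open Polynomial TensorProduct

/-- The group `ℤ[P¹(F)]`; the point `∞` is `none`. -/
abbrev Z1 (F : Type) : Type := Option F →₀ ℤ

open Classical in
/-- The value at `a` of a point `f` of `P¹(F(t))`, that is, of a rational function or of `∞`. -/
noncomputable def valueAt {F : Type} [Field F] (a : F) : Option (RatFunc F) → Option F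
  | none => none
  | some f => if f.denom.eval a = 0 then none else some (f.num.eval a / f.denom.eval a)

/-- `α ↦ α(a)`, from `ℤ[P¹(F(t))]` to `ℤ[P¹(F)]` -/
noncomputable def specialize {F : Type} [Field F] (a : F) : Z1 (RatFunc F) →ₗ[ℤ] Z1 F :=
  Finsupp.lmapDomain ℤ ℤ (valueAt a)

open Classical in
/-- `(1 - x) ∧ x`, and `0` for `x = 0, 1, ∞` -/
noncomputable def wedge {F : Type} [Field F] : Option F → ⋀[ℤ]^2 (Additive Fˣ)
  | none => 0
  | some x => if h : x ≠ 0 ∧ 1 - x ≠ 0 then
      exteriorPower.ιMulti ℤ 2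
        ![Additive.ofMul (Units.mk0 (1 - x) h.2), Additive.ofMul (Units.mk0 x h.1)]
      else 0

open Classical in
/-- `{x} ⊗ x` with `{x}` taken modulo `R`, and `0` for `x = 0, 1, ∞` -/
noncomputable def tens {F : Type} [Field F] (R : Submodule ℤ (Z1 F)) :
    Option F → ((Z1 F) ⧸ R) ⊗[ℤ] (Additive Fˣ)
  | none => 0
  | some x => if h : x ≠ 0 ∧ 1 - x ≠ 0 then
      (R.mkQ (Finsupp.single (some x) 1)) ⊗ₜ[ℤ] Additive.ofMul (Units.mk0 x h.1)
      else 0

/-- The kernel of `δ_n` on `ℤ[P¹(F)]` for `n = k + 2`, where `R` stands for `𝓡_{n-1}`: `δ_2` maps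
`{x}` to `(1 - x) ∧ x`, and `δ_n` maps `{x}` to `{x} ⊗ x` in `ℤ[P¹(F)]/𝓡_{n-1}(F) ⊗ F^*` if `n ≥ 3`. -/
noncomputable def kerOf (k : ℕ) (R : ∀ (F : Type) [Field F], Submodule ℤ (Z1 F)) (F : Type)
    [Field F] : Submodule ℤ (Z1 F) :=
  if k = 0 then LinearMap.ker (Finsupp.linearCombination ℤ (wedge (F := F)))
  else LinearMap.ker (Finsupp.linearCombination ℤ (tens (R F)))

/-- The group generated by `{0}`, `{∞}` and `α(0) - α(1)` for `α` in the group `K (F(t))`. -/
noncomputable def relOf (K : ∀ (F : Type) [Field F], Submodule ℤ (Z1 F)) (F : Type) [Field F] :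
    Submodule ℤ (Z1 F) :=
  Submodule.span ℤ ({Finsupp.single (some 0) 1, Finsupp.single none 1} ∪
    {b | ∃ α ∈ K (RatFunc F), b = specialize 0 α - specialize 1 α})

/-- **The relations** `𝓡_n(F)`: `𝓡_1(F)` is generated by `{0}`, `{∞}` and `{x} + {y} - {xy}`
(`x, y ≠ 0`); for `n ≥ 2`, `𝓡_n(F)` is generated by `{0}`, `{∞}` and all `α(0) - α(1)` for `α` in the
kernel of `δ_n` on `ℤ[P¹(F(t))]`. -/
noncomputable def Rel : ℕ → ∀ (F : Type) [Field F], Submodule ℤ (Z1 F)
  | 0 => fun _ _ => ⊤
  | 1 => fun F _ => Submodule.span ℤ ({Finsupp.single (some 0) 1, Finsupp.single none 1} ∪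
      {b | ∃ x y : F, x ≠ 0 ∧ y ≠ 0 ∧ b = Finsupp.single (some x) 1 + Finsupp.single (some y) 1 -
        Finsupp.single (some (x * y)) 1})
  | k + 2 => fun F _ => relOf (fun F _ => kerOf k (Rel (k + 1)) F) F

/-- **The kernel of** `δ_n` on `ℤ[P¹(F)]`, for `n ≥ 2`. -/
noncomputable def kerDelta (n : ℕ) (F : Type) [Field F] : Submodule ℤ (Z1 F) :=
  kerOf (n - 2) (Rel (n - 1)) F

/-! ### functoriality -/

/-- the map of the groups `ℤ[P¹]` -/
noncomputable def push {E F : Type} [Field E] [Field F] (τ : E →+* F) : Z1 E →ₗ[ℤ] Z1 F :=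
  Finsupp.lmapDomain ℤ ℤ (Option.map τ)

@[simp] theorem push_single {E F : Type} [Field E] [Field F] (τ : E →+* F) (x : Option E) (m : ℤ) :
    push τ (Finsupp.single x m) = Finsupp.single (x.map τ) m := by
  simp [push, Finsupp.lmapDomain_apply, Finsupp.mapDomain_single]

/-- the map of the multiplicative groups -/
noncomputable def um {E F : Type} [Field E] [Field F] (τ : E →+* F) :
    Additive Eˣ →ₗ[ℤ] Additive Fˣ :=
  (MonoidHom.toAdditive (Units.map (τ : E →* F))).toIntLinearMap

theorem um_ofMul {E F : Type} [Field E] [Field F] (τ : E →+* F) (x : E) (hx : x ≠ 0)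
    (hx' : τ x ≠ 0) : um τ (Additive.ofMul (Units.mk0 x hx)) = Additive.ofMul (Units.mk0 (τ x) hx') := by
  change Additive.ofMul (Units.map (τ : E →* F) (Units.mk0 x hx)) = _
  congr 1
  ext
  rfl

section
variable {E F : Type} [Field E] [Field F] (τ : E →+* F)

theorem sub_one_ne (x : E) : (τ x ≠ 0 ∧ 1 - τ x ≠ 0) ↔ (x ≠ 0 ∧ 1 - x ≠ 0) := by
  rw [show (1 : F) - τ x = τ (1 - x) by rw [map_sub, map_one], _root_.map_ne_zero,
    _root_.map_ne_zero]

theorem wedge_map (x : Option E) :
    wedge (x.map τ) = exteriorPower.map 2 (um τ) (wedge x) := by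
  classical
  rcases x with _ | x
  · simp [wedge]
  · by_cases h : x ≠ 0 ∧ 1 - x ≠ 0
    · have h' : τ x ≠ 0 ∧ 1 - τ x ≠ 0 := (sub_one_ne τ x).2 h
      simp only [wedge, Option.map_some]
      rw [dif_pos h, dif_pos h', exteriorPower.map_apply_ιMulti]
      congr 1
      funext i
      fin_cases i
      · change _ = um τ (Additive.ofMul (Units.mk0 (1 - x) h.2))
        rw [um_ofMul τ _ h.2 (by rw [map_sub, map_one]; exact h'.2)]
        simp only [map_sub, map_one]
        rfl
      · change _ = um τ (Additive.ofMul (Units.mk0 x h.1))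
        rw [um_ofMul τ _ h.1 h'.1]
        rfl
    · have h' : ¬ (τ x ≠ 0 ∧ 1 - τ x ≠ 0) := fun h1 => h ((sub_one_ne τ x).1 h1)
      simp only [wedge, Option.map_some]
      rw [dif_neg h, dif_neg h', map_zero]

/-- the map of the quotients -/
noncomputable def quo {R : Submodule ℤ (Z1 E)} {R' : Submodule ℤ (Z1 F)}
    (h : R ≤ R'.comap (push τ)) : (Z1 E ⧸ R) →ₗ[ℤ] (Z1 F ⧸ R') :=
  R.mapQ R' (push τ) h

theorem tens_map {R : Submodule ℤ (Z1 E)} {R' : Submodule ℤ (Z1 F)}
    (h : R ≤ R'.comap (push τ)) (x : Option E) :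
    tens R' (x.map τ) = TensorProduct.map (quo τ h) (um τ) (tens R x) := by
  classical
  rcases x with _ | x
  · simp [tens]
  · by_cases hx : x ≠ 0 ∧ 1 - x ≠ 0
    · have hx' : τ x ≠ 0 ∧ 1 - τ x ≠ 0 := (sub_one_ne τ x).2 hx
      simp only [tens, Option.map_some]
      rw [dif_pos hx, dif_pos hx', TensorProduct.map_tmul, um_ofMul τ _ hx.1 hx'.1]
      congr 1
      rw [quo, Submodule.mkQ_apply, Submodule.mkQ_apply, Submodule.mapQ_apply, push_single]
      rfl
    · have hx' : ¬ (τ x ≠ 0 ∧ 1 - τ x ≠ 0) := fun h1 => hx ((sub_one_ne τ x).1 h1)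
      simp only [tens, Option.map_some]
      rw [dif_neg hx, dif_neg hx', map_zero]

theorem lin_push {M N : Type} [AddCommGroup M] [AddCommGroup N] (u : Option E → M)
    (v : Option F → N) (φ : M →ₗ[ℤ] N) (h : ∀ x, v (x.map τ) = φ (u x)) (α : Z1 E) :
    Finsupp.linearCombination ℤ v (push τ α) = φ (Finsupp.linearCombination ℤ u α) := by
  induction α using Finsupp.induction_linear with
  | zero => simp
  | add f g hf hg => rw [map_add, map_add, hf, hg, map_add, map_add]
  | single x m =>
    rw [push_single, Finsupp.linearCombination_single, Finsupp.linearCombination_single, h,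
      map_smul]

theorem kerOf_push (k : ℕ) {R : ∀ (F : Type) [Field F], Submodule ℤ (Z1 F)}
    (h : k ≠ 0 → R E ≤ (R F).comap (push τ)) {α : Z1 E} (hα : α ∈ kerOf k R E) :
    push τ α ∈ kerOf k R F := by
  unfold kerOf at hα ⊢
  split_ifs at hα ⊢ with hk
  · rw [LinearMap.mem_ker] at hα ⊢
    rw [lin_push τ _ _ _ (wedge_map τ), hα, map_zero]
  · rw [LinearMap.mem_ker] at hα ⊢
    rw [lin_push τ _ _ _ (tens_map τ (h hk)), hα, map_zero]

theorem nzd : nonZeroDivisors E[X] ≤
    Submonoid.comap (Polynomial.mapRingHom τ) (nonZeroDivisors F[X]) := by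
  intro p hp
  rw [Submonoid.mem_comap]
  rw [mem_nonZeroDivisors_iff_ne_zero] at hp ⊢
  intro h
  exact hp ((Polynomial.map_eq_zero τ).1 h)

/-- the map of the rational function fields -/
noncomputable def rf : RatFunc E →+* RatFunc F :=
  RatFunc.mapRingHom (Polynomial.mapRingHom τ) (nzd τ)

theorem rf_eq (f : RatFunc E) :
    rf τ f = algebraMap F[X] (RatFunc F) (f.num.map τ) / algebraMap F[X] (RatFunc F) (f.denom.map τ) :=
  RatFunc.map_apply (Polynomial.mapRingHom τ) (nzd τ) f

theorem valueAt_map (a : E) (x : Option (RatFunc E)) :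
    valueAt (τ a) (x.map (rf τ)) = (valueAt a x).map τ := by
  classical
  rcases x with _ | f
  · simp [valueAt]
  · have hq : (f.denom.map τ) ≠ 0 := by
      intro h
      exact f.denom_ne_zero ((Polynomial.map_eq_zero τ).1 h)
    set g := rf τ f with hg
    have hcross : g.num * f.denom.map τ = f.num.map τ * g.denom := by
      have h1 : algebraMap F[X] (RatFunc F) g.num / algebraMap F[X] (RatFunc F) g.denom =
          algebraMap F[X] (RatFunc F) (f.num.map τ) / algebraMap F[X] (RatFunc F) (f.denom.map τ) := by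
        rw [RatFunc.num_div_denom, hg, rf_eq]
      rw [div_eq_div_iff (RatFunc.algebraMap_ne_zero g.denom_ne_zero)
        (RatFunc.algebraMap_ne_zero hq), ← map_mul, ← map_mul] at h1
      exact RatFunc.algebraMap_injective F h1
    have hcop : IsCoprime (f.num.map τ) (f.denom.map τ) :=
      (RatFunc.isCoprime_num_denom f).map (Polynomial.mapRingHom τ)
    have hd1 : g.denom ∣ f.denom.map τ := by
      have : g.denom ∣ g.num * f.denom.map τ := by
        rw [hcross]
        exact dvd_mul_left _ _
      exact (RatFunc.isCoprime_num_denom g).symm.dvd_of_dvd_mul_left this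
    have hd2 : f.denom.map τ ∣ g.denom := by
      have : f.denom.map τ ∣ f.num.map τ * g.denom := by
        rw [← hcross]
        exact dvd_mul_left _ _
      exact hcop.symm.dvd_of_dvd_mul_left this
    have hden : g.denom = f.denom.map τ :=
      Polynomial.eq_of_monic_of_associated (RatFunc.monic_denom g)
        ((RatFunc.monic_denom f).map τ) (associated_of_dvd_dvd hd1 hd2)
    have hnum : g.num = f.num.map τ := by
      rw [hden] at hcross
      exact mul_right_cancel₀ hq hcross
    simp only [valueAt, Option.map_some]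
    rw [← hg, hden, hnum, Polynomial.eval_map_apply, Polynomial.eval_map_apply]
    by_cases h0 : f.denom.eval a = 0
    · rw [if_pos h0, if_pos (by rw [h0, map_zero])]
      rfl
    · rw [if_neg h0, if_neg (fun h => h0 ((_root_.map_eq_zero τ).1 h)), Option.map_some, map_div₀]

theorem specialize_push (a : E) (α : Z1 (RatFunc E)) :
    push τ (specialize a α) = specialize (τ a) (push (rf τ) α) := by
  induction α using Finsupp.induction_linear with
  | zero => simp
  | add f g hf hg => simp only [map_add, hf, hg]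
  | single x m =>
    rw [push_single]
    simp only [specialize, Finsupp.lmapDomain_apply, Finsupp.mapDomain_single]
    rw [push_single, valueAt_map]

end

theorem rel_push : ∀ (n : ℕ) {E F : Type} [Field E] [Field F] (τ : E →+* F),
    Rel n E ≤ (Rel n F).comap (push τ)
  | 0, E, F, _, _, τ => by
    intro x _
    exact Submodule.mem_top
  | 1, E, F, _, _, τ => by
    rw [Rel, Submodule.span_le]
    rintro b (hb | ⟨x, y, hx, hy, rfl⟩)
    · rcases hb with rfl | rfl
      · simp only [Submodule.comap_coe, Set.mem_preimage, push_single, Option.map_some, map_zero]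
        exact Submodule.subset_span (Or.inl (Or.inl rfl))
      · simp only [Submodule.comap_coe, Set.mem_preimage, push_single, Option.map_none]
        exact Submodule.subset_span (Or.inl (Or.inr rfl))
    · simp only [Submodule.comap_coe, Set.mem_preimage, map_sub, map_add, push_single,
        Option.map_some, map_mul]
      exact Submodule.subset_span (Or.inr ⟨τ x, τ y, (_root_.map_ne_zero τ).2 hx, (_root_.map_ne_zero τ).2 hy, rfl⟩)
  | k + 2, E, F, _, _, τ => by
    have h1 : ∀ (L : Type) [Field L], Rel (k + 2) L =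
        relOf (fun F _ => kerOf k (Rel (k + 1)) F) L := fun _ _ => rfl
    rw [h1 E, h1 F]
    unfold relOf
    rw [Submodule.span_le]
    rintro b (hb | ⟨α, hα, rfl⟩)
    · rcases hb with rfl | rfl
      · simp only [Submodule.comap_coe, Set.mem_preimage, push_single, Option.map_some, map_zero]
        exact Submodule.subset_span (Or.inl (Or.inl rfl))
      · simp only [Submodule.comap_coe, Set.mem_preimage, push_single, Option.map_none]
        exact Submodule.subset_span (Or.inl (Or.inr rfl))
    · simp only [Submodule.comap_coe, Set.mem_preimage, map_sub, specialize_push, map_zero, map_one]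
      exact Submodule.subset_span (Or.inr ⟨push (rf τ) α,
        kerOf_push (rf τ) k (fun _ => rel_push (k + 1) (rf τ)) hα, rfl⟩)

theorem kerDelta_push (n : ℕ) {E F : Type} [Field E] [Field F] (τ : E →+* F) {α : Z1 E}
    (hα : α ∈ kerDelta n E) : push τ α ∈ kerDelta n F :=
  kerOf_push τ (n - 2) (fun _ => rel_push (n - 1) τ) hα

end Pool.Agent.Q60.ZG
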