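import Pool.Agent.Q60.ZG.Orbit

/-! Commutative groups of automorphisms which permute the places simply transitively: Zagier's
conjecture is equivalent to the nonvanishing, for each character, of one linear combination. -/

set_option autoImplicit false

namespace Pool.Agent.Q60.ZG

open NumberField

variable {n : ℕ} {F : Type} [Field F] [NumberField F]

/-- The commutative group `A` of automorphisms of `F` permutes the infinite places (`n` odd), or the
complex places (`n` even), simply transitively: each of them is the place of `σ ∘ a` for exactly one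
`a` in `A`, and all places of `σ ∘ a` are of this kind. -/
structure SimplyTransitive (n : ℕ) {F : Type} [Field F] [NumberField F] (A : Subgroup (F ≃ₐ[ℚ] F))
    (σ : F →+* ℂ) : Prop where
  comm : ∀ a b : A, a * b = b * a
  unique : ∀ v : Idx n F, ∃! a : A, InfinitePlace.mk (act σ a) = v.1
  all : ∀ a : A, Odd n ∨ (InfinitePlace.mk (act σ a)).IsComplex

open Classical in
/-- `∑_a χ(a) y(σ ∘ a)` -/
noncomputable def coeff {A : Subgroup (F ≃ₐ[ℚ] F)} (σ : F →+* ℂ) (χ : A →* ℂˣ)
    (y : (F →+* ℂ) → ℝ) : ℂ := ∑ a : A, (χ a : ℂ) * (y (act σ a) : ℂ)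

/-- restriction to the orbit -/
def orb (A : Subgroup (F ≃ₐ[ℚ] F)) (σ : F →+* ℂ) (f : (F →+* ℂ) → ℝ) : A → ℂ :=
  fun a => (f (act σ a) : ℂ)

theorem base_self {A : Subgroup (F ≃ₐ[ℚ] F)} {σ : F →+* ℂ} (h : SimplyTransitive n A σ) :
    base n σ σ ≠ 0 := by
  classical
  unfold base
  rw [if_pos rfl]
  by_cases hc : σ = ComplexEmbedding.conjugate σ
  · have hn : Odd n := by
      rcases h.all 1 with h1 | h1
      · exact h1
      · exfalso
        have h2 : act σ ((1 : A) : F ≃ₐ[ℚ] F) = σ := act_one σ
        rw [h2] at h1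
        exact (InfinitePlace.not_isReal_iff_isComplex.2 h1) ⟨σ, hc.symm, rfl⟩
    rw [if_pos hc]
    unfold eps
    rw [if_pos hn]
    norm_num
  · rw [if_neg hc]
    norm_num

theorem base_other {A : Subgroup (F ≃ₐ[ℚ] F)} {σ : F →+* ℂ} (h : SimplyTransitive n A σ) {a : A}
    (ha : a ≠ 1) : base n σ (act σ a) = 0 := by
  classical
  have hne : InfinitePlace.mk (act σ a) ≠ InfinitePlace.mk σ := by
    intro h1
    obtain ⟨c, _, hc⟩ := h.unique ⟨InfinitePlace.mk (act σ a), h.all a⟩
    have h2 : a = c := hc a rfl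
    have h3 : (1 : A) = c := hc 1 (by
      change InfinitePlace.mk (act σ 1) = InfinitePlace.mk (act σ a)
      rw [act_one]
      exact h1.symm)
    exact ha (h2.trans h3.symm)
  unfold base
  rw [if_neg (fun h1 => hne (by rw [h1])), if_neg (fun h1 => hne (by
    rw [h1, InfinitePlace.mk_conjugate_eq])), mul_zero, add_zero]

theorem eq_zero_of_orbit {A : Subgroup (F ≃ₐ[ℚ] F)} {σ : F →+* ℂ} (h : SimplyTransitive n A σ)
    {f : (F →+* ℂ) → ℝ} (hf : Parity n f) (h0 : ∀ a : A, f (act σ a) = 0) : f = 0 := by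
  apply eq_zero_of_idx hf
  intro v
  obtain ⟨a, ha, _⟩ := h.unique v
  rw [← InfinitePlace.mk_embedding v.1, InfinitePlace.mk_eq_iff] at ha
  rcases ha with h1 | h1
  · rw [← h1]
    exact h0 a
  · rw [← h1, hf, h0 a, mul_zero]

theorem values_act (y : (F →+* ℂ) → ℝ) (hy : y ∈ Values n F) (g : F ≃ₐ[ℚ] F) :
    (fun ρ => y (act ρ g)) ∈ Values n F :=
  values_pull n (g : F →+* F) hy

/-- the characters are in the complex span -/
theorem char_mem {A : Subgroup (F ≃ₐ[ℚ] F)} {σ : F →+* ℂ}
    (χ : A →* ℂˣ) {y : (F →+* ℂ) → ℝ} (hy : y ∈ Values n F) (hc : coeff σ χ y ≠ 0) :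
    (fun a : A => ((χ a)⁻¹ : ℂ)) ∈ Submodule.span ℂ (orb A σ '' (Values n F : Set _)) := by
  classical
  have h1 : (fun a : A => ((χ a)⁻¹ : ℂ)) = (coeff σ χ y)⁻¹ •
      ∑ b : A, (χ b : ℂ) • orb A σ (fun ρ => y (act ρ b)) := by
    funext a
    rw [Pi.smul_apply, Finset.sum_apply, smul_eq_mul]
    have h2 : ∑ b : A, ((χ b : ℂ) • orb A σ (fun ρ => y (act ρ b))) a =
        (χ a : ℂ)⁻¹ * coeff σ χ y := by
      unfold coeff
      rw [Finset.mul_sum]
      refine Fintype.sum_equiv (Equiv.mulLeft a) _ _ fun b => ?_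
      rw [Pi.smul_apply, smul_eq_mul, Equiv.coe_mulLeft]
      unfold orb
      beta_reduce
      rw [act_mul, map_mul, Units.val_mul, ← mul_assoc, ← mul_assoc,
        inv_mul_cancel₀ (Units.ne_zero (χ a)), one_mul]
      rfl
    rw [h2, mul_comm (χ a : ℂ)⁻¹, ← mul_assoc, inv_mul_cancel₀ hc, one_mul]
  rw [h1]
  refine Submodule.smul_mem _ _ (Submodule.sum_mem _ fun b _ => Submodule.smul_mem _ _
    (Submodule.subset_span ⟨_, values_act y hy b, rfl⟩))

/-- the characters span all functions on a finite commutative group -/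
theorem chars_span (A : Type) [Group A] [Finite A] (hcomm : ∀ a b : A, a * b = b * a)
    (V : Submodule ℂ (A → ℂ)) (hV : ∀ χ : A →* ℂˣ, (fun a : A => ((χ a)⁻¹ : ℂ)) ∈ V) :
    V = ⊤ := by
  classical
  letI : CommGroup A := { (inferInstance : Group A) with mul_comm := hcomm }
  have hb := (AddChar.complexBasis (Additive A)).span_eq
  rw [eq_top_iff]
  have h1 : (⊤ : Submodule ℂ (Additive A → ℂ)) ≤ V := by
    rw [← hb, Submodule.span_le]
    rintro _ ⟨ψ, rfl⟩
    rw [AddChar.complexBasis_apply]
    let χ0 : A →* ℂ := ψ.toMonoidHom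
    let χ : A →* ℂˣ := (MonoidHom.toHomUnits χ0)
    have h2 := hV χ⁻¹
    have h3 : (fun a : A => (((χ⁻¹) a)⁻¹ : ℂ)) = fun a : A => ψ (Additive.ofMul a) := by
      funext a
      rw [MonoidHom.inv_apply, Units.val_inv_eq_inv_val, inv_inv]
      rfl
    rw [h3] at h2
    exact h2
  exact h1

/-- **Nonvanishing for each character suffices.** -/
theorem zagier_iff_coeff (hB : HasBorel n F) {A : Subgroup (F ≃ₐ[ℚ] F)} {σ : F →+* ℂ}
    (h : SimplyTransitive n A σ) :
    Zagier n F ↔ ∀ χ : A →* ℂˣ, ∃ y ∈ Values n F, coeff σ χ y ≠ 0 := by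
  classical
  have hVp : ∀ g ∈ Values n F, Parity n g := by
    obtain ⟨κ, hκp, hκ, hκf, hκv⟩ := hB
    intro g hg
    have h1 : Submodule.span ℚ (Set.range κ) ≤ (par n F).restrictScalars ℚ := by
      rw [Submodule.span_le]
      rintro _ ⟨i, rfl⟩
      exact hκp i
    exact h1 (hκv hg)
  rw [zagier_iff hB]
  constructor
  · intro hZ χ
    by_contra hcon
    push Not at hcon
    have h1 : ∀ f ∈ Submodule.span ℝ (Values n F : Set ((F →+* ℂ) → ℝ)), coeff σ χ f = 0 := by
      intro f hf
      induction hf using Submodule.span_induction with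
      | mem f hf => exact hcon f hf
      | zero => simp [coeff]
      | add f g _ _ hf hg =>
        have h2 : coeff σ χ (f + g) = coeff σ χ f + coeff σ χ g := by
          unfold coeff
          rw [← Finset.sum_add_distrib]
          refine Finset.sum_congr rfl fun a _ => ?_
          rw [Pi.add_apply]
          push_cast
          ring
        rw [h2, hf, hg, add_zero]
      | smul c f _ hf =>
        have h2 : coeff σ χ (c • f) = (c : ℂ) * coeff σ χ f := by
          unfold coeff
          rw [Finset.mul_sum]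
          refine Finset.sum_congr rfl fun a _ => ?_
          rw [Pi.smul_apply, smul_eq_mul]
          push_cast
          ring
        rw [h2, hf, mul_zero]
    have h2 := h1 _ (hZ _ (base_parity n σ))
    have h3 : coeff σ χ (base n σ) = (base n σ σ : ℂ) := by
      unfold coeff
      rw [Finset.sum_eq_single (1 : A)]
      · rw [map_one]
        change (1 : ℂ) * (base n σ (act σ 1) : ℂ) = _
        rw [act_one, one_mul]
      · intro a _ ha
        rw [base_other h ha]
        simp
      · intro hmem
        exact absurd (Finset.mem_univ _) hmem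
    rw [h3] at h2
    exact base_self h (by exact_mod_cast h2)
  · intro hχ f hf
    have htop : Submodule.span ℂ (orb A σ '' (Values n F : Set _)) = ⊤ := by
      apply chars_span A h.comm
      intro χ
      obtain ⟨y, hy, hc⟩ := hχ χ
      exact char_mem χ hy hc
    have key : ∀ z ∈ Submodule.span ℂ (orb A σ '' (Values n F : Set ((F →+* ℂ) → ℝ))),
        ∃ f1 ∈ Submodule.span ℝ (Values n F : Set ((F →+* ℂ) → ℝ)),
        ∃ f2 ∈ Submodule.span ℝ (Values n F : Set ((F →+* ℂ) → ℝ)),
          z = orb A σ f1 + Complex.I • orb A σ f2 := by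
      intro z hz
      induction hz using Submodule.span_induction with
      | mem z hz =>
        obtain ⟨f, hf, rfl⟩ := hz
        refine ⟨f, Submodule.subset_span hf, 0, Submodule.zero_mem _, ?_⟩
        funext a
        simp [orb]
      | zero =>
        refine ⟨0, Submodule.zero_mem _, 0, Submodule.zero_mem _, ?_⟩
        funext a
        simp [orb]
      | add z w _ _ hz hw =>
        obtain ⟨f1, hf1, f2, hf2, rfl⟩ := hz
        obtain ⟨g1, hg1, g2, hg2, rfl⟩ := hw
        refine ⟨f1 + g1, Submodule.add_mem _ hf1 hg1, f2 + g2, Submodule.add_mem _ hf2 hg2, ?_⟩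
        funext a
        simp only [orb, Pi.add_apply, Pi.smul_apply, smul_eq_mul]
        push_cast
        ring
      | smul c z _ hz =>
        obtain ⟨f1, hf1, f2, hf2, rfl⟩ := hz
        refine ⟨c.re • f1 - c.im • f2, Submodule.sub_mem _ (Submodule.smul_mem _ _ hf1)
          (Submodule.smul_mem _ _ hf2), c.re • f2 + c.im • f1,
          Submodule.add_mem _ (Submodule.smul_mem _ _ hf2) (Submodule.smul_mem _ _ hf1), ?_⟩
        funext a
        simp only [orb, Pi.add_apply, Pi.sub_apply, Pi.smul_apply, smul_eq_mul]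
        push_cast
        have hc : c = (c.re : ℂ) + (c.im : ℂ) * Complex.I := (Complex.re_add_im c).symm
        conv_lhs => rw [hc]
        linear_combination ((c.im : ℂ) * (f2 (act σ a) : ℂ)) * Complex.I_mul_I
    obtain ⟨f1, hf1, f2, hf2, hz⟩ := key (orb A σ f) (by rw [htop]; exact Submodule.mem_top)
    have hpar1 : Parity n f1 := by
      have h1 : Submodule.span ℝ (Values n F : Set ((F →+* ℂ) → ℝ)) ≤ par n F := by
        rw [Submodule.span_le]
        intro g hg
        exact hVp g hg
      exact h1 hf1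
    have h2 : f - f1 = 0 := by
      apply eq_zero_of_orbit h
      · have h3 := hf.add (hpar1.smul (-1))
        rwa [neg_one_smul, ← sub_eq_add_neg] at h3
      · intro a
        have h4 := congrArg Complex.re (congrFun hz a)
        simp only [orb, Pi.add_apply, Pi.smul_apply, smul_eq_mul, Complex.add_re,
          Complex.ofReal_re, Complex.mul_re, Complex.I_re, Complex.I_im, Complex.ofReal_im,
          zero_mul, mul_zero, sub_zero, add_zero] at h4
        rw [Pi.sub_apply, h4, sub_self]
    rw [sub_eq_zero] at h2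
    rw [h2]
    exact hf1

end Pool.Agent.Q60.ZG
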