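import Pool.Agent.Q60.ZG.Defs

/-! Zagier's conjecture for `F` holds if and only if the vectors of the values of `𝓛_n` span the real
space of the functions with the right behaviour under complex conjugation. -/

set_option autoImplicit false

namespace Pool.Agent.Q60.ZG

open NumberField

theorem eps_ne (n : ℕ) : eps n ≠ 0 := by
  unfold eps
  split_ifs <;> norm_num

/-- a rational subspace of the span of linearly independent vectors that spans them over `ℝ` -/
theorem lemmaA {ι X : Type} [Fintype ι] (κ : ι → X → ℝ) (hκ : LinearIndependent ℝ κ)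
    (W : Submodule ℚ (X → ℝ)) (hW : W ≤ Submodule.span ℚ (Set.range κ))
    (h : ∀ i, κ i ∈ Submodule.span ℝ (W : Set (X → ℝ))) (i : ι) : κ i ∈ W := by
  classical
  set T : (ι → ℚ) →ₗ[ℚ] (X → ℝ) := Fintype.linearCombination ℚ κ with hT
  by_cases hW' : W.comap T = ⊤
  · have h1 : (Pi.single i (1 : ℚ)) ∈ W.comap T := by
      rw [hW']
      exact Submodule.mem_top
    rw [Submodule.mem_comap, hT, Fintype.linearCombination_apply_single, one_smul] at h1
    exact h1
  · exfalso
    obtain ⟨f, hf0, hf⟩ := Submodule.exists_le_ker_of_lt_top _ (lt_top_iff_ne_top.2 hW')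
    set b := Module.Basis.span hκ with hb
    set Φ0 := b.constr ℝ (fun j => ((f (Pi.single j 1) : ℚ) : ℝ)) with hΦ0
    obtain ⟨Φ, hΦ⟩ := LinearMap.exists_extend Φ0
    have hκΦ : ∀ j, Φ (κ j) = ((f (Pi.single j 1) : ℚ) : ℝ) := by
      intro j
      have h1 : Φ0 (b j) = ((f (Pi.single j 1) : ℚ) : ℝ) := Module.Basis.constr_basis b ℝ _ j
      rw [← h1, ← hΦ, LinearMap.comp_apply, Submodule.subtype_apply, hb, Module.Basis.span_apply]
    have hker : Submodule.span ℝ (W : Set (X → ℝ)) ≤ LinearMap.ker Φ := by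
      rw [Submodule.span_le]
      intro w hw
      have h1 : w ∈ LinearMap.range T := by
        rw [hT, Fintype.range_linearCombination]
        exact hW hw
      obtain ⟨q, rfl⟩ := h1
      have h2 : f q = 0 := by
        have h3 : q ∈ LinearMap.ker f := hf (show T q ∈ W from hw)
        rwa [LinearMap.mem_ker] at h3
      have h4 : q = ∑ j, q j • Pi.single j (1 : ℚ) := by
        funext k
        simp [Finset.sum_apply, Pi.single_apply]
      have h5 : f q = ∑ j, q j * f (Pi.single j 1) := by
        conv_lhs => rw [h4]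
        rw [map_sum]
        refine Finset.sum_congr rfl fun j _ => ?_
        rw [map_smul, smul_eq_mul]
      rw [SetLike.mem_coe, LinearMap.mem_ker, hT, Fintype.linearCombination_apply, map_sum]
      have h6 : ∀ j, Φ (q j • κ j) = ((q j * f (Pi.single j 1) : ℚ) : ℝ) := by
        intro j
        have h7 : (q j • κ j : X → ℝ) = (q j : ℝ) • κ j := by
          funext x
          simp only [Pi.smul_apply, smul_eq_mul]
          rw [Rat.smul_def]
        rw [h7, map_smul, hκΦ, smul_eq_mul]
        push_cast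
        rfl
      simp only [h6]
      rw [← Rat.cast_sum, ← h5, h2, Rat.cast_zero]
    apply hf0
    ext j
    have h8 : Φ (κ j) = 0 := by
      have := hker (h j)
      rwa [LinearMap.mem_ker] at this
    rw [hκΦ] at h8
    have h9 : f (Pi.single j 1) = 0 := by exact_mod_cast h8
    simpa using h9

section
variable {n : ℕ} {F : Type} [Field F]

theorem Parity.add {f g : (F →+* ℂ) → ℝ} (hf : Parity n f) (hg : Parity n g) :
    Parity n (f + g) := fun σ => by
  rw [Pi.add_apply, Pi.add_apply, hf σ, hg σ, mul_add]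

theorem Parity.smul {f : (F →+* ℂ) → ℝ} (hf : Parity n f) (c : ℝ) : Parity n (c • f) := fun σ => by
  rw [Pi.smul_apply, Pi.smul_apply, hf σ, smul_eq_mul, smul_eq_mul]
  ring

theorem Parity.zero : Parity n (0 : (F →+* ℂ) → ℝ) := fun σ => by
  rw [Pi.zero_apply, Pi.zero_apply, mul_zero]

theorem Parity.sum {ι : Type} (s : Finset ι) {f : ι → (F →+* ℂ) → ℝ} (hf : ∀ i ∈ s, Parity n (f i)) :
    Parity n (∑ i ∈ s, f i) := by
  classical
  induction s using Finset.induction_on with
  | empty => simpa using (Parity.zero : Parity n (0 : (F →+* ℂ) → ℝ))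
  | insert i s hi ih =>
    rw [Finset.sum_insert hi]
    exact (hf i (Finset.mem_insert_self i s)).add (ih fun j hj => hf j (Finset.mem_insert_of_mem hj))

/-- the space of the functions with the right parity -/
def par (n : ℕ) (F : Type) [Field F] : Submodule ℝ ((F →+* ℂ) → ℝ) where
  carrier := {f | Parity n f}
  add_mem' hf hg := hf.add hg
  zero_mem' := Parity.zero
  smul_mem' c _ hf := hf.smul c

theorem mem_par {f : (F →+* ℂ) → ℝ} : f ∈ par n F ↔ Parity n f := Iff.rfl

theorem eq_zero_of_idx {f : (F →+* ℂ) → ℝ} (hf : Parity n f)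
    (h : ∀ j : Idx n F, f j.1.embedding = 0) : f = 0 := by
  funext σ
  rw [Pi.zero_apply]
  by_cases hv : Odd n ∨ (InfinitePlace.mk σ).IsComplex
  · have h1 := h ⟨InfinitePlace.mk σ, hv⟩
    rcases InfinitePlace.embedding_mk_eq σ with h2 | h2
    · simpa only [h2] using h1
    · simp only [h2] at h1
      rw [hf σ] at h1
      exact (mul_eq_zero.1 h1).resolve_left (eps_ne n)
  · push Not at hv
    have hr : (InfinitePlace.mk σ).IsReal := InfinitePlace.not_isComplex_iff_isReal.1 hv.2
    have hc : ComplexEmbedding.conjugate σ = σ := by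
      have h2 := InfinitePlace.conjugate_embedding_eq_of_isReal hr
      rcases InfinitePlace.embedding_mk_eq σ with h3 | h3
      · rwa [h3] at h2
      · rw [h3] at h2
        rw [ComplexEmbedding.involutive_conjugate F σ] at h2
        exact h2.symm
    have h4 := hf σ
    rw [hc] at h4
    have h5 : eps n = -1 := by
      unfold eps
      rw [if_neg (by simpa using hv.1)]
    rw [h5] at h4
    linarith

end

section
variable {n : ℕ} {F : Type} [Field F] [NumberField F]

theorem linInd {y : Idx n F → (F →+* ℂ) → ℝ} (h : reg n F y ≠ 0) : LinearIndependent ℝ y := by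
  classical
  have h1 : LinearIndependent ℝ (fun i => (Matrix.of fun i j : Idx n F => y i j.1.embedding) i) :=
    Matrix.linearIndependent_rows_of_det_ne_zero h
  let ev : ((F →+* ℂ) → ℝ) →ₗ[ℝ] (Idx n F → ℝ) :=
    LinearMap.funLeft ℝ ℝ fun j : Idx n F => j.1.embedding
  exact LinearIndependent.of_comp ev h1

theorem mem_span {y : Idx n F → (F →+* ℂ) → ℝ} (h : reg n F y ≠ 0) (hy : ∀ i, Parity n (y i))
    {f : (F →+* ℂ) → ℝ} (hf : Parity n f) : f ∈ Submodule.span ℝ (Set.range y) := by
  classical
  set M : Matrix (Idx n F) (Idx n F) ℝ := Matrix.of fun i j : Idx n F => y i j.1.embedding with hM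
  have hu : IsUnit M.det := isUnit_iff_ne_zero.2 h
  set v : Idx n F → ℝ := fun j => f j.1.embedding with hv
  set a : Idx n F → ℝ := Matrix.vecMul v M⁻¹ with ha
  have h1 : Matrix.vecMul a M = v := by
    rw [ha, Matrix.vecMul_vecMul, Matrix.nonsing_inv_mul _ hu, Matrix.vecMul_one]
  have h2 : f - ∑ i, a i • y i = 0 := by
    apply eq_zero_of_idx (n := n)
    · have : Parity n (∑ i, a i • y i) := Parity.sum _ fun i _ => (hy i).smul _
      have h3 := hf.add (this.smul (-1))
      rwa [neg_one_smul, ← sub_eq_add_neg] at h3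
    · intro j
      have h3 := congrFun h1 j
      rw [Matrix.vecMul, dotProduct] at h3
      rw [Pi.sub_apply, Finset.sum_apply]
      simp only [Pi.smul_apply, smul_eq_mul]
      have h4 : ∑ i, a i * y i j.1.embedding = v j := h3
      rw [h4, hv, sub_self]
  rw [sub_eq_zero] at h2
  rw [h2]
  exact Submodule.sum_mem _ fun i _ => Submodule.smul_mem _ _ (Submodule.subset_span ⟨i, rfl⟩)

theorem reg_ne {y κ : Idx n F → (F →+* ℂ) → ℝ} (hκ : reg n F κ ≠ 0) (h : Formula n F κ)
    (hy : Formula n F y) : reg n F y ≠ 0 := by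
  obtain ⟨q, hq, h1⟩ := h
  obtain ⟨q', hq', h2⟩ := hy
  intro h0
  rw [h0, mul_zero, Complex.ofReal_zero] at h2
  rw [h2] at h1
  have h3 : (q : ℝ) * Real.pi ^ (n * Nat.card (Idx (n - 1) F)) * (√|(discr F : ℝ)|)⁻¹ * reg n F κ
      = 0 := by exact_mod_cast h1.symm
  have h4 : (√|(discr F : ℝ)|)⁻¹ ≠ 0 := by
    apply inv_ne_zero
    rw [Real.sqrt_ne_zero']
    exact abs_pos.2 (by exact_mod_cast discr_ne_zero F)
  have h5 : (q : ℝ) ≠ 0 := by exact_mod_cast hq
  exact mul_ne_zero (mul_ne_zero (mul_ne_zero h5 (pow_ne_zero _ Real.pi_ne_zero)) h4) hκ h3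

/-- **Zagier's conjecture** for `F` holds if and only if the vectors of values span the whole real
space. -/
theorem zagier_iff (hB : HasBorel n F) : Zagier n F ↔
    ∀ f : (F →+* ℂ) → ℝ, Parity n f → f ∈ Submodule.span ℝ (Values n F : Set ((F →+* ℂ) → ℝ)) := by
  classical
  obtain ⟨κ, hκp, hκ, hκf, hκv⟩ := hB
  have hVp : ∀ g ∈ Values n F, Parity n g := by
    intro g hg
    have h1 : Submodule.span ℚ (Set.range κ) ≤ (par n F).restrictScalars ℚ := by
      rw [Submodule.span_le]
      rintro _ ⟨i, rfl⟩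
      exact hκp i
    exact h1 (hκv hg)
  constructor
  · rintro ⟨y, hy, hyf⟩ f hf
    have h1 := mem_span (reg_ne hκ hκf hyf) (fun i => hVp _ (hy i)) hf
    refine Submodule.span_mono ?_ h1
    rintro _ ⟨i, rfl⟩
    exact hy i
  · intro h
    exact ⟨κ, lemmaA κ (linInd hκ) (Values n F) hκv fun i => h _ (hκp i), hκf⟩

end

/-! ### functoriality of the vectors of values -/

theorem vec_push (n : ℕ) {E F : Type} [Field E] [Field F] (τ : E →+* F) (α : Z1 E) :
    vec n F (push τ α) = fun σ => vec n E α (σ.comp τ) := by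
  let φ : ((E →+* ℂ) → ℝ) →ₗ[ℤ] ((F →+* ℂ) → ℝ) :=
    LinearMap.funLeft ℤ ℝ fun σ : F →+* ℂ => σ.comp τ
  have h := lin_push τ (fun (x : Option E) (σ : E →+* ℂ) => polyL n (x.map σ))
    (fun (x : Option F) (σ : F →+* ℂ) => polyL n (x.map σ)) φ (fun x => by
      funext σ
      change polyL n ((x.map τ).map σ) = polyL n (x.map (σ.comp τ))
      rw [Option.map_map]
      rfl) α
  exact h

theorem values_pull (n : ℕ) {E F : Type} [Field E] [Field F] (τ : E →+* F)
    {f : (E →+* ℂ) → ℝ} (hf : f ∈ Values n E) : (fun σ => f (σ.comp τ)) ∈ Values n F := by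
  let φ : ((E →+* ℂ) → ℝ) →ₗ[ℚ] ((F →+* ℂ) → ℝ) :=
    LinearMap.funLeft ℚ ℝ fun σ : F →+* ℂ => σ.comp τ
  have h : Values n E ≤ (Values n F).comap φ := by
    rw [Values, Submodule.span_le]
    rintro _ ⟨α, hα, rfl⟩
    change φ (vec n E α) ∈ Values n F
    have h1 : φ (vec n E α) = vec n F (push τ α) := (vec_push n τ α).symm
    rw [h1]
    exact Submodule.subset_span ⟨_, kerDelta_push n τ hα, rfl⟩
  exact h hf

theorem span_values_pull (n : ℕ) {E F : Type} [Field E] [Field F] (τ : E →+* F)
    {f : (E →+* ℂ) → ℝ} (hf : f ∈ Submodule.span ℝ (Values n E : Set ((E →+* ℂ) → ℝ))) :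
    (fun σ => f (σ.comp τ)) ∈ Submodule.span ℝ (Values n F : Set ((F →+* ℂ) → ℝ)) := by
  let φ : ((E →+* ℂ) → ℝ) →ₗ[ℝ] ((F →+* ℂ) → ℝ) :=
    LinearMap.funLeft ℝ ℝ fun σ : F →+* ℂ => σ.comp τ
  have h : Submodule.span ℝ (Values n E : Set ((E →+* ℂ) → ℝ)) ≤
      (Submodule.span ℝ (Values n F : Set ((F →+* ℂ) → ℝ))).comap φ := by
    rw [Submodule.span_le]
    intro g hg
    exact Submodule.subset_span (values_pull n τ hg)
  exact h hf

/-- **The criterion.** -/
theorem zagier_of_spanned {n : ℕ} (hB : ∀ (F : Type) [Field F] [NumberField F], HasBorel n F)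
    (F : Type) [Field F] [NumberField F] {S : Set (IntermediateField ℚ F)} (hS : Spanned n F S)
    (h : ∀ E ∈ S, Zagier n E) : Zagier n F := by
  rw [zagier_iff (hB F)]
  intro f hf
  have h1 : Submodule.span ℝ (FromOne n S) ≤
      Submodule.span ℝ (Values n F : Set ((F →+* ℂ) → ℝ)) := by
    rw [Submodule.span_le]
    rintro _ ⟨E, hE, g, hg, rfl⟩
    exact span_values_pull n (algebraMap E F) ((zagier_iff (hB E)).1 (h E hE) g hg)
  exact h1 (hS f hf)

/-- the reduction to the fields that are not spanned by their proper subfields -/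
theorem zagier_all {n : ℕ} (hB : ∀ (F : Type) [Field F] [NumberField F], HasBorel n F)
    (h : ∀ (F : Type) [Field F] [NumberField F], ¬ Spanned n F {E | E ≠ ⊤} → Zagier n F) :
    ∀ (F : Type) [Field F] [NumberField F], Zagier n F := by
  suffices H : ∀ (d : ℕ) (F : Type) [Field F] [NumberField F], Module.finrank ℚ F = d →
      Zagier n F from fun F _ _ => H _ F rfl
  intro d
  induction d using Nat.strong_induction_on with
  | _ d ih =>
    intro F _ _ hd
    by_cases hS : Spanned n F {E | E ≠ ⊤}
    · refine zagier_of_spanned hB F hS fun E hE => ?_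
      have h1 : Module.finrank ℚ E < Module.finrank ℚ F := by
        have h2 := Submodule.finrank_lt (K := ℚ) (V := F) (s := Subalgebra.toSubmodule E.toSubalgebra)
          (by
            intro h3
            apply hE
            ext x
            refine ⟨fun _ => IntermediateField.mem_top, fun _ => ?_⟩
            have h4 : x ∈ Subalgebra.toSubmodule E.toSubalgebra := by
              rw [h3]
              exact Submodule.mem_top
            exact h4)
        exact h2
      exact ih _ (hd ▸ h1) E rfl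
    · exact h F hS

end Pool.Agent.Q60.ZG
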