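import Pool.Agent.Q60.ZG.Bloch

/-! Zagier's conjecture on the values of the Dedekind zeta function at `n`. -/

set_option autoImplicit false

namespace Pool.Agent.Q60.ZG

open NumberField

/-- the real part if `n` is odd, the imaginary part if `n` is even -/
noncomputable def part (n : ℕ) (w : ℂ) : ℝ := if Odd n then w.re else w.im

/-- `(-1)^(n-1)` -/
def eps (n : ℕ) : ℝ := if Odd n then 1 else -1

/-- `∑_(k < n) β_k (log |z|)^k Li_(n-k)(z)` with `β_k = 2^k B_k / k!`, for `|z| ≤ 1` (where
`Li_m(z) = ∑_(j ≥ 1) z^j / j^m`). -/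
noncomputable def series (n : ℕ) (z : ℂ) : ℂ :=
  ∑ k ∈ Finset.range n, ((2 ^ k * bernoulli k / k.factorial : ℚ) : ℂ) * (Real.log ‖z‖ : ℂ) ^ k *
    ∑' j : ℕ, z ^ (j + 1) / ((j : ℂ) + 1) ^ (n - k)

/-- **The single-valued polylogarithm** `𝓛_n` on `P¹(ℂ)`: for `|z| ≤ 1` the real or imaginary part of
`∑_(k < n) β_k (log |z|)^k Li_(n-k)(z)`, for `|z| > 1` given by `𝓛_n(z) = (-1)^(n-1) 𝓛_n(1/z)`, and
`𝓛_n(∞) = 0`. -/
noncomputable def polyL (n : ℕ) : Option ℂ → ℝ
  | none => 0
  | some z => if ‖z‖ ≤ 1 then part n (series n z) else eps n * part n (series n z⁻¹)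

/-- `α ↦ (𝓛_n(σ(α)))_σ`, where `σ` runs over the embeddings `F → ℂ`. -/
noncomputable def vec (n : ℕ) (F : Type) [Field F] : Z1 F →ₗ[ℤ] ((F →+* ℂ) → ℝ) :=
  Finsupp.linearCombination ℤ fun (x : Option F) (σ : F →+* ℂ) => polyL n (x.map σ)

/-- **The vectors** `(𝓛_n(σ(y)))_σ` for `y` in `ker δ_n ⊗ ℚ`: the rational vector space spanned by the
vectors of the elements of the kernel of `δ_n` on `ℤ[P¹(F)]`. -/
noncomputable def Values (n : ℕ) (F : Type) [Field F] : Submodule ℚ ((F →+* ℂ) → ℝ) :=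
  Submodule.span ℚ (vec n F '' (kerDelta n F : Set (Z1 F)))

/-- the infinite places if `n` is odd, the complex places if `n` is even; there are `d_n` -/
abbrev Idx (n : ℕ) (F : Type) [Field F] : Type := {v : InfinitePlace F // Odd n ∨ v.IsComplex}

open Classical in
/-- the determinant of `(y_i(σ_j))`, one embedding `σ_j` for each place -/
noncomputable def reg (n : ℕ) (F : Type) [Field F] [NumberField F]
    (y : Idx n F → (F →+* ℂ) → ℝ) : ℝ :=
  Matrix.det (Matrix.of fun i j : Idx n F => y i j.1.embedding)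

/-- **The formula for the value of the zeta function**:
`ζ_F(n) = q π^(n d_(n-1)) |d_F|^(-1/2) det (y_i(σ_j))` with a nonzero rational number `q`. -/
def Formula (n : ℕ) (F : Type) [Field F] [NumberField F] (y : Idx n F → (F →+* ℂ) → ℝ) : Prop :=
  ∃ q : ℚ, q ≠ 0 ∧ dedekindZeta F (n : ℂ) =
    (((q : ℝ) * Real.pi ^ (n * Nat.card (Idx (n - 1) F)) * (√|(discr F : ℝ)|)⁻¹ * reg n F y : ℝ) : ℂ)

/-- **Zagier's conjecture** for the number field `F` and the integer `n`. -/
def Zagier (n : ℕ) (F : Type) [Field F] [NumberField F] : Prop :=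
  ∃ y : Idx n F → (F →+* ℂ) → ℝ, (∀ i, y i ∈ Values n F) ∧ Formula n F y

/-- `f(conj σ) = (-1)^(n-1) f(σ)` for all embeddings `σ` -/
def Parity (n : ℕ) {F : Type} [Field F] (f : (F →+* ℂ) → ℝ) : Prop :=
  ∀ σ, f (ComplexEmbedding.conjugate σ) = eps n * f σ

/-- **The theorems of Borel and of Beilinson–Deligne and de Jeu** for `F`: there are `d_n` vectors `κ_i`
(a basis of the image of `K_(2n-1)(F) ⊗ ℚ` under the Borel regulator) with the right behaviour under
complex conjugation which satisfy the formula for `ζ_F(n)` and have nonzero determinant, such that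
the vectors `(𝓛_n(σ(y)))_σ`, `y ∈ ker δ_n`, are rational linear combinations of the `κ_i`. -/
def HasBorel (n : ℕ) (F : Type) [Field F] [NumberField F] : Prop :=
  ∃ κ : Idx n F → (F →+* ℂ) → ℝ, (∀ i, Parity n (κ i)) ∧ reg n F κ ≠ 0 ∧ Formula n F κ ∧
    Values n F ≤ Submodule.span ℚ (Set.range κ)

/-- The functions on the embeddings of `F` that come from functions, with the same behaviour under
complex conjugation, on the embeddings of a subfield `E` in `S`. -/
def FromOne (n : ℕ) {F : Type} [Field F] [NumberField F] (S : Set (IntermediateField ℚ F)) :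
    Set ((F →+* ℂ) → ℝ) :=
  {g | ∃ E ∈ S, ∃ h : (E →+* ℂ) → ℝ, Parity n h ∧ g = fun σ => h (σ.comp (algebraMap E F))}

/-- `F` **is spanned by the subfields in** `S`, in weight `n`: every real function `f` on the embeddings
`F → ℂ` with `f(conj σ) = (-1)^(n-1) f(σ)` is a linear combination of such functions of the
restrictions of `σ` to the fields in `S`. -/
def Spanned (n : ℕ) (F : Type) [Field F] [NumberField F] (S : Set (IntermediateField ℚ F)) : Prop :=
  ∀ f : (F →+* ℂ) → ℝ, Parity n f → f ∈ Submodule.span ℝ (FromOne n S)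

end Pool.Agent.Q60.ZG
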