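import Pool.Agent.Q60.ZG.Core

/-! Functions on the embeddings that come from a subfield; fixed fields of automorphisms. -/

set_option autoImplicit false

namespace Pool.Agent.Q60.ZG

open NumberField

variable {n : ℕ} {F : Type} [Field F] [NumberField F]

/-- `f(σ)` depends only on the restriction of `σ` to `E`. -/
theorem fromOne_of_agree {S : Set (IntermediateField ℚ F)} {E : IntermediateField ℚ F} (hE : E ∈ S)
    {f : (F →+* ℂ) → ℝ} (hf : Parity n f)
    (h : ∀ σ σ' : F →+* ℂ, (∀ x ∈ E, σ x = σ' x) → f σ = f σ') : f ∈ FromOne n S := by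
  classical
  set h0 : (E →+* ℂ) → ℝ := fun τ =>
    if hx : ∃ σ : F →+* ℂ, σ.comp (algebraMap E F) = τ then f hx.choose else 0 with hh0
  have key : ∀ σ : F →+* ℂ, h0 (σ.comp (algebraMap E F)) = f σ := by
    intro σ
    have hx : ∃ σ' : F →+* ℂ, σ'.comp (algebraMap E F) = σ.comp (algebraMap E F) := ⟨σ, rfl⟩
    simp only [hh0]
    rw [dif_pos hx]
    apply h
    intro x hxE
    exact RingHom.congr_fun hx.choose_spec ⟨x, hxE⟩
  refine ⟨E, hE, h0, ?_, ?_⟩
  · intro τ
    by_cases hx : ∃ σ : F →+* ℂ, σ.comp (algebraMap E F) = τ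
    · obtain ⟨σ, rfl⟩ := hx
      have h1 : ComplexEmbedding.conjugate (σ.comp (algebraMap E F)) =
          (ComplexEmbedding.conjugate σ).comp (algebraMap E F) := by
        ext x
        rfl
      rw [h1, key, key, hf σ]
    · have hx' : ¬ ∃ σ : F →+* ℂ, σ.comp (algebraMap E F) = ComplexEmbedding.conjugate τ := by
        rintro ⟨σ, hσ⟩
        apply hx
        refine ⟨ComplexEmbedding.conjugate σ, ?_⟩
        have h1 : (ComplexEmbedding.conjugate σ).comp (algebraMap E F) =
            ComplexEmbedding.conjugate (σ.comp (algebraMap E F)) := by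
          ext x
          rfl
        rw [h1, hσ]
        exact ComplexEmbedding.involutive_conjugate E τ
      simp only [hh0]
      rw [dif_neg hx, dif_neg hx', mul_zero]
  · funext σ
    exact (key σ).symm

/-- the embedding `σ ∘ g` -/
def act (σ : F →+* ℂ) (g : F ≃ₐ[ℚ] F) : F →+* ℂ := σ.comp (g : F →+* F)

theorem act_apply (σ : F →+* ℂ) (g : F ≃ₐ[ℚ] F) (x : F) : act σ g x = σ (g x) := rfl

theorem act_mul (σ : F →+* ℂ) (g h : F ≃ₐ[ℚ] F) : act (act σ g) h = act σ (g * h) := by
  ext x
  rfl

theorem act_one (σ : F →+* ℂ) : act σ 1 = σ := by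
  ext x
  rfl

theorem act_conj (σ : F →+* ℂ) (g : F ≃ₐ[ℚ] F) :
    ComplexEmbedding.conjugate (act σ g) = act (ComplexEmbedding.conjugate σ) g := by
  ext x
  rfl

theorem galois_fixed (B : Subgroup (F ≃ₐ[ℚ] F)) : IsGalois (IntermediateField.fixedField B) F := by
  refine IsGalois.of_card_aut_eq_finrank _ _ ?_
  rw [IntermediateField.finrank_fixedField_eq_card]
  exact (Nat.card_congr (IntermediateField.subgroupEquivAlgEquiv B).toEquiv).symm

/-- two embeddings which agree on the fixed field of `B` differ by an element of `B` -/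
theorem exists_mem (B : Subgroup (F ≃ₐ[ℚ] F)) {σ σ' : F →+* ℂ}
    (h : ∀ x ∈ IntermediateField.fixedField B, σ x = σ' x) : ∃ g ∈ B, σ' = act σ g := by
  have hgal := galois_fixed B
  let _ : Algebra F ℂ := σ.toAlgebra
  let s' : F →ₐ[IntermediateField.fixedField B] ℂ :=
    { σ' with commutes' := fun x => (h x x.2).symm }
  let g : F ≃ₐ[IntermediateField.fixedField B] F := AlgEquiv.ofBijective (s'.restrictNormal F)
    (AlgHom.normal_bijective (IntermediateField.fixedField B) F F _)
  have hg : ∀ x, σ (g x) = σ' x := fun x => AlgHom.restrictNormal_commutes s' F x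
  refine ⟨g.restrictScalars ℚ, ?_, ?_⟩
  · have h1 : g.restrictScalars ℚ ∈ (IntermediateField.fixedField B).fixingSubgroup := by
      intro x
      exact g.commutes x
    rwa [IntermediateField.fixingSubgroup_fixedField] at h1
  · ext x
    exact (hg x).symm

end Pool.Agent.Q60.ZG
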