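import Pool.Agent.Q60.ZG.Chars

/-! Extensions of imaginary quadratic fields. -/

set_option autoImplicit false

namespace Pool.Agent.Q60.ZG

open NumberField IntermediateField

variable {n : ℕ} {F : Type} [Field F] [NumberField F]

/-- `F` is a finite abelian extension of its imaginary quadratic subfield `k`. -/
structure AbelianOverImaginary (F : Type) [Field F] [NumberField F] (k : IntermediateField ℚ F) :
    Prop where
  quadratic : Module.finrank ℚ k = 2
  imaginary : ∀ σ : F →+* ℂ, ∃ x ∈ k, ComplexEmbedding.conjugate σ x ≠ σ x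
  galois : fixedField k.fixingSubgroup = k
  comm : ∀ a b : k.fixingSubgroup, a * b = b * a

/-- two embeddings of `F` agree on `k` or are conjugate on `k` -/
theorem agree_or {k : IntermediateField ℚ F} (h2 : Module.finrank ℚ k = 2) {σ ρ : F →+* ℂ}
    (him : ∃ x ∈ k, ComplexEmbedding.conjugate σ x ≠ σ x) :
    (∀ x ∈ k, σ x = ρ x) ∨ (∀ x ∈ k, σ x = ComplexEmbedding.conjugate ρ x) := by
  classical
  set a : k →+* ℂ := σ.comp (algebraMap k F) with ha
  set b : k →+* ℂ := (ComplexEmbedding.conjugate σ).comp (algebraMap k F) with hb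
  set c : k →+* ℂ := ρ.comp (algebraMap k F) with hc
  have hab : a ≠ b := by
    intro h
    obtain ⟨x, hx, hne⟩ := him
    exact hne (RingHom.congr_fun h ⟨x, hx⟩).symm
  have hcard : Fintype.card (k →+* ℂ) = 2 := by
    rw [Embeddings.card k ℂ, h2]
  by_cases h1 : c = a
  · left
    intro x hx
    exact (RingHom.congr_fun h1 ⟨x, hx⟩).symm
  · right
    have h3 : c = b := by
      by_contra hcb
      have h4 : ({a, b, c} : Finset (k →+* ℂ)).card = 3 := by
        rw [Finset.card_insert_of_notMem, Finset.card_insert_of_notMem, Finset.card_singleton]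
        · rw [Finset.mem_singleton]
          exact fun h => hcb h.symm
        · rw [Finset.mem_insert, Finset.mem_singleton]
          rintro (h | h)
          · exact hab h
          · exact h1 h.symm
      have h5 := Finset.card_le_univ ({a, b, c} : Finset (k →+* ℂ))
      rw [h4, hcard] at h5
      omega
    intro x hx
    have h4 : ρ x = ComplexEmbedding.conjugate σ x := RingHom.congr_fun h3 ⟨x, hx⟩
    rw [ComplexEmbedding.conjugate_coe_eq, h4, ComplexEmbedding.conjugate_coe_eq,
      Complex.conj_conj]

theorem simplyTransitive {k : IntermediateField ℚ F} (h : AbelianOverImaginary F k)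
    (n : ℕ) (σ : F →+* ℂ) : SimplyTransitive n k.fixingSubgroup σ := by
  have hfix : ∀ (a : k.fixingSubgroup) (x : F), x ∈ k → (a : F ≃ₐ[ℚ] F) x = x := by
    intro a x hx
    exact (IntermediateField.mem_fixingSubgroup_iff k a.1).1 a.2 x hx
  refine ⟨h.comm, ?_, ?_⟩
  · intro v
    -- an embedding at `v` that agrees with `σ` on `k`
    have h1 : ∃ ρ : F →+* ℂ, InfinitePlace.mk ρ = v.1 ∧ ∀ x ∈ k, σ x = ρ x := by
      rcases agree_or (ρ := v.1.embedding) h.quadratic (h.imaginary σ) with h2 | h2
      · exact ⟨v.1.embedding, InfinitePlace.mk_embedding _, h2⟩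
      · exact ⟨ComplexEmbedding.conjugate v.1.embedding, by
          rw [InfinitePlace.mk_conjugate_eq, InfinitePlace.mk_embedding], h2⟩
    obtain ⟨ρ, hρ, hag⟩ := h1
    obtain ⟨g, hg, hgρ⟩ := exists_mem k.fixingSubgroup (σ := σ) (σ' := ρ) (by
      rw [h.galois]
      exact hag)
    refine ⟨⟨g, hg⟩, ?_, ?_⟩
    · change InfinitePlace.mk (act σ g) = v.1
      rw [← hgρ, hρ]
    · intro b hb
      beta_reduce at hb
      have h3 : InfinitePlace.mk (act σ b) = InfinitePlace.mk (act σ g) := by
        rw [hb, ← hgρ, hρ]
      rw [InfinitePlace.mk_eq_iff] at h3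
      rcases h3 with h3 | h3
      · apply Subtype.ext
        apply AlgEquiv.ext
        intro x
        apply σ.injective
        exact RingHom.congr_fun h3 x
      · exfalso
        obtain ⟨x, hx, hne⟩ := h.imaginary σ
        apply hne
        have h4 := RingHom.congr_fun h3 x
        rw [ComplexEmbedding.conjugate_coe_eq, act_apply, act_apply, hfix b x hx] at h4
        rw [ComplexEmbedding.conjugate_coe_eq, h4]
        congr 1
        exact hfix ⟨g, hg⟩ x hx
  · intro a
    right
    rw [← InfinitePlace.not_isReal_iff_isComplex]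
    rintro ⟨ρ, hρ, hmk⟩
    obtain ⟨x, hx, hne⟩ := h.imaginary σ
    have hreal : ComplexEmbedding.conjugate (act σ a) = act σ a := by
      rcases InfinitePlace.mk_eq_iff.1 hmk with h4 | h4
      · rw [← h4]
        exact ComplexEmbedding.isReal_iff.1 hρ
      · rw [ComplexEmbedding.isReal_iff.1 hρ] at h4
        rw [← h4]
        exact ComplexEmbedding.isReal_iff.1 hρ
    apply hne
    have h5 := RingHom.congr_fun hreal x
    rw [ComplexEmbedding.conjugate_coe_eq, act_apply, hfix a x hx] at h5
    rw [ComplexEmbedding.conjugate_coe_eq]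
    exact h5

end Pool.Agent.Q60.ZG
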