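import Pool.Agent.Q60.ZG.Galois

/-! One element for each orbit of the automorphisms on the places. -/

set_option autoImplicit false

namespace Pool.Agent.Q60.ZG

open NumberField

variable {n : ℕ} {F : Type} [Field F] [NumberField F]

/-- a family of rational combinations of the `κ_i` with nonzero determinant satisfies the formula -/
theorem formula_of_mem {κ y : Idx n F → (F →+* ℂ) → ℝ} (hf : Formula n F κ)
    (hy : ∀ i, y i ∈ Submodule.span ℚ (Set.range κ)) (hr : reg n F y ≠ 0) : Formula n F y := by
  classical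
  obtain ⟨q, hq, h1⟩ := hf
  have h2 : ∀ i, ∃ a : Idx n F → ℚ, ∑ j, a j • κ j = y i := fun i =>
    (Submodule.mem_span_range_iff_exists_fun ℚ).1 (hy i)
  choose A hA using h2
  have h3 : (Matrix.of fun i j : Idx n F => y i j.1.embedding) =
      ((Matrix.of fun i j => (A i j : ℝ)) : Matrix (Idx n F) (Idx n F) ℝ) *
        (Matrix.of fun i j : Idx n F => κ i j.1.embedding) := by
    ext i j
    rw [Matrix.mul_apply]
    simp only [Matrix.of_apply]
    rw [← hA i, Finset.sum_apply]
    refine Finset.sum_congr rfl fun k _ => ?_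
    rw [Pi.smul_apply, Rat.smul_def]
  have h4 : reg n F y = ((Matrix.of fun i j => A i j : Matrix (Idx n F) (Idx n F) ℚ).det : ℝ) *
      reg n F κ := by
    unfold reg
    rw [h3, Matrix.det_mul]
    congr 1
    have h5 : ((Matrix.of fun i j => (A i j : ℝ)) : Matrix (Idx n F) (Idx n F) ℝ) =
        (Rat.castHom ℝ).mapMatrix (Matrix.of fun i j => A i j : Matrix (Idx n F) (Idx n F) ℚ) := by
      ext i j
      rfl
    rw [h5, ← RingHom.map_det]
    rfl
  set D : ℚ := (Matrix.of fun i j => A i j : Matrix (Idx n F) (Idx n F) ℚ).det with hD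
  have hD0 : D ≠ 0 := by
    intro h
    rw [h4, h, Rat.cast_zero, zero_mul] at hr
    exact hr rfl
  refine ⟨q / D, div_ne_zero hq hD0, ?_⟩
  rw [h1, h4]
  congr 1
  have hD1 : (D : ℝ) ≠ 0 := by exact_mod_cast hD0
  push_cast
  field_simp

/-- the embeddings `b_k` and the automorphisms `g_v` represent the places: `v` is the place of
`b_(s v) ∘ g_v` -/
def Represents (n : ℕ) {F : Type} [Field F] [NumberField F] {B : Type} (b : B → (F →+* ℂ))
    (s : Idx n F → B) (g : Idx n F → (F ≃ₐ[ℚ] F)) : Prop :=
  ∀ v, InfinitePlace.mk (act (b (s v)) (g v)) = v.1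

/-- the vectors of the elements `g_v⁻¹ (y_(s v))` -/
def conjugates {B : Type} (s : Idx n F → B) (g : Idx n F → (F ≃ₐ[ℚ] F))
    (y : B → (F →+* ℂ) → ℝ) : Idx n F → (F →+* ℂ) → ℝ :=
  fun v ρ => y (s v) (act ρ (g v)⁻¹)

open Classical in
/-- the function with the values `1` at `σ` and `(-1)^(n-1)` at the conjugate, added up -/
noncomputable def base (n : ℕ) (σ : F →+* ℂ) : (F →+* ℂ) → ℝ := fun ρ =>
  (if ρ = σ then 1 else 0) + eps n * (if ρ = ComplexEmbedding.conjugate σ then 1 else 0)

omit [NumberField F] in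
theorem base_parity (n : ℕ) (σ : F →+* ℂ) : Parity n (base n σ) := by
  classical
  intro ρ
  have he : eps n * eps n = 1 := by
    unfold eps
    split_ifs <;> norm_num
  unfold base
  have h1 : (ComplexEmbedding.conjugate ρ = σ) ↔ ρ = ComplexEmbedding.conjugate σ := by
    constructor
    · rintro rfl
      exact (ComplexEmbedding.involutive_conjugate F ρ).symm
    · rintro rfl
      exact ComplexEmbedding.involutive_conjugate F σ
  have h2 : (ComplexEmbedding.conjugate ρ = ComplexEmbedding.conjugate σ) ↔ ρ = σ := by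
    constructor
    · intro h
      exact (ComplexEmbedding.involutive_conjugate F).injective h
    · rintro rfl
      rfl
  rw [mul_add, ← mul_assoc, he, one_mul]
  by_cases h3 : ρ = σ <;> by_cases h4 : ρ = ComplexEmbedding.conjugate σ
  · rw [if_pos (h1.2 h4), if_pos (h2.2 h3), if_pos h3, if_pos h4]
    ring
  · rw [if_neg (fun h => h4 (h1.1 h)), if_pos (h2.2 h3), if_pos h3, if_neg h4]
    ring
  · rw [if_pos (h1.2 h4), if_neg (fun h => h3 (h2.1 h)), if_neg h3, if_pos h4]
    ring
  · rw [if_neg (fun h => h4 (h1.1 h)), if_neg (fun h => h3 (h2.1 h)), if_neg h3, if_neg h4]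
    ring

theorem mk_act {ρ σ : F →+* ℂ} (h : InfinitePlace.mk ρ = InfinitePlace.mk σ) (g : F ≃ₐ[ℚ] F) :
    InfinitePlace.mk (act ρ g) = InfinitePlace.mk (act σ g) := by
  rw [InfinitePlace.mk_eq_iff] at h ⊢
  rcases h with rfl | h
  · left
    rfl
  · right
    rw [act_conj, h]

theorem base_reg {B : Type} {b : B → (F →+* ℂ)} {s : Idx n F → B}
    {g : Idx n F → (F ≃ₐ[ℚ] F)} (h : Represents n b s g) :
    reg n F (conjugates s g fun k => base n (b k)) ≠ 0 := by
  classical
  unfold reg
  have hdiag : (Matrix.of fun i j : Idx n F =>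
      conjugates s g (fun k => base n (b k)) i j.1.embedding) =
      Matrix.diagonal fun i => base n (b (s i)) (act i.1.embedding (g i)⁻¹) := by
    ext i j
    rw [Matrix.diagonal_apply, Matrix.of_apply]
    split_ifs with hij
    · subst hij
      rfl
    · unfold conjugates base
      have hne : ∀ σ : F →+* ℂ, InfinitePlace.mk σ = InfinitePlace.mk (b (s i)) →
          act j.1.embedding (g i)⁻¹ ≠ σ := by
        rintro σ hσ rfl
        apply hij
        have h1 := mk_act hσ (g i)
        rw [act_mul, inv_mul_cancel, act_one, InfinitePlace.mk_embedding, h i] at h1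
        exact Subtype.ext h1.symm
      beta_reduce
      rw [if_neg (hne _ rfl), if_neg (hne _ (InfinitePlace.mk_conjugate_eq _)), mul_zero,
        add_zero]
  rw [hdiag, Matrix.det_diagonal]
  apply Finset.prod_ne_zero_iff.2
  intro i _
  have hpl : InfinitePlace.mk (act i.1.embedding (g i)⁻¹) = InfinitePlace.mk (b (s i)) := by
    have h1 : InfinitePlace.mk i.1.embedding = InfinitePlace.mk (act (b (s i)) (g i)) := by
      rw [InfinitePlace.mk_embedding, h i]
    have h2 := mk_act h1 (g i)⁻¹
    rw [act_mul, mul_inv_cancel, act_one] at h2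
    exact h2
  by_cases hc : ComplexEmbedding.conjugate (b (s i)) = b (s i)
  · -- a real place, so the weight is odd
    have hn : Odd n := by
      rcases i.2 with hn | hcx
      · exact hn
      · exfalso
        have h1 : InfinitePlace.mk (act (b (s i)) (g i)) = i.1 := h i
        have h2 : ComplexEmbedding.IsReal (act (b (s i)) (g i)) := by
          rw [ComplexEmbedding.isReal_iff, act_conj, hc]
        rw [← h1] at hcx
        exact (InfinitePlace.not_isReal_iff_isComplex.2 hcx) ⟨_, h2, rfl⟩
    have he : eps n = 1 := by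
      unfold eps
      rw [if_pos hn]
    have h3 : act i.1.embedding (g i)⁻¹ = b (s i) := by
      rcases InfinitePlace.mk_eq_iff.1 hpl with h4 | h4
      · exact h4
      · have h5 := congrArg ComplexEmbedding.conjugate h4
        rw [ComplexEmbedding.involutive_conjugate F _, hc] at h5
        exact h5
    unfold base
    rw [h3, if_pos rfl, if_pos hc.symm, he]
    norm_num
  · unfold base
    rcases InfinitePlace.mk_eq_iff.1 hpl with h4 | h4
    · rw [h4, if_pos rfl, if_neg (fun h5 => hc h5.symm)]
      norm_num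
    · have h5 : act i.1.embedding (g i)⁻¹ = ComplexEmbedding.conjugate (b (s i)) := by
        rw [← h4, ComplexEmbedding.involutive_conjugate F _]
      rw [h5, if_neg hc, if_pos rfl, zero_add, mul_one]
      exact eps_ne n

/-- a polynomial function on the real span of a rational vector space which is not zero everywhere is
not zero on the rational vector space (determinants of matrices with linear entries) -/
theorem exists_rational {X B I : Type} [Finite X] [Fintype I] [DecidableEq I] [Finite B]
    (W : Submodule ℚ (X → ℝ)) (s : I → B) (e : I → I → X) (y0 : B → X → ℝ)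
    (hy0 : ∀ k, y0 k ∈ Submodule.span ℝ (W : Set (X → ℝ)))
    (h0 : (Matrix.of fun i j => y0 (s i) (e i j)).det ≠ 0) :
    ∃ y : B → X → ℝ, (∀ k, y k ∈ W) ∧ (Matrix.of fun i j => y (s i) (e i j)).det ≠ 0 := by
  classical
  have _ := Fintype.ofFinite X
  -- a finite spanning set in `W`
  obtain ⟨w, hw⟩ : ∃ w : X → W, ∀ f ∈ Submodule.span ℝ (W : Set (X → ℝ)),
      f ∈ Submodule.span ℝ (Set.range fun k => (w k : X → ℝ)) := by
    set V := Submodule.span ℝ (W : Set (X → ℝ)) with hV
    obtain ⟨t, ht, htV, hli⟩ := exists_linearIndependent ℝ (W : Set (X → ℝ))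
    have hfin : Finite t := hli.finite
    have _ := Fintype.ofFinite t
    have hcard : Fintype.card t ≤ Fintype.card X := by
      have := hli.fintype_card_le_finrank
      rwa [Module.finrank_fintype_fun_eq_card] at this
    by_cases hne : Nonempty t
    · obtain ⟨φ, hφ⟩ : ∃ φ : X → t, Function.Surjective φ := by
        have hemb : Nonempty (t ↪ X) := Function.Embedding.nonempty_of_card_le hcard
        obtain ⟨ψ⟩ := hemb
        exact ⟨Function.invFun ψ, Function.invFun_surjective ψ.injective⟩
      refine ⟨fun k => ⟨φ k, ht (φ k).2⟩, fun f hf => ?_⟩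
      have h1 : Set.range (fun k => ((⟨φ k, ht (φ k).2⟩ : W) : X → ℝ)) = t := by
        ext z
        constructor
        · rintro ⟨k, rfl⟩
          exact (φ k).2
        · intro hz
          obtain ⟨k, hk⟩ := hφ ⟨z, hz⟩
          exact ⟨k, congrArg Subtype.val hk⟩
      rw [h1, htV]
      exact hf
    · refine ⟨fun _ => 0, fun f hf => ?_⟩
      have h1 : t = ∅ := Set.not_nonempty_iff_eq_empty.1 fun ⟨z, hz⟩ => hne ⟨⟨z, hz⟩⟩
      rw [h1, Submodule.span_empty] at htV
      rw [hV, ← htV] at hf
      rw [(Submodule.mem_bot ℝ).1 hf]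
      exact Submodule.zero_mem _
  have h1 : ∀ k, ∃ a : X → ℝ, ∑ x, a x • (w x : X → ℝ) = y0 k := fun k =>
    (Submodule.mem_span_range_iff_exists_fun ℝ).1 (hw _ (hy0 k))
  choose a ha using h1
  -- the determinant as a polynomial in the coefficients
  set P : MvPolynomial (B × X) ℝ := (Matrix.of fun i j : I =>
    ∑ x : X, MvPolynomial.C ((w x : X → ℝ) (e i j)) * MvPolynomial.X (s i, x)).det with hP
  have heval : ∀ t : B × X → ℝ, MvPolynomial.eval t P =
      (Matrix.of fun i j : I => (∑ x, t (s i, x) • (w x : X → ℝ)) (e i j)).det := by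
    intro t
    rw [hP, RingHom.map_det]
    congr 1
    ext i j
    rw [RingHom.mapMatrix_apply, Matrix.map_apply, Matrix.of_apply, Matrix.of_apply, map_sum,
      Finset.sum_apply]
    refine Finset.sum_congr rfl fun x _ => ?_
    rw [map_mul, MvPolynomial.eval_C, MvPolynomial.eval_X, Pi.smul_apply, smul_eq_mul, mul_comm]
  have hP0 : P ≠ 0 := by
    intro hz
    apply h0
    have h2 := heval fun z => a z.1 z.2
    rw [hz, map_zero] at h2
    rw [h2]
    congr 1
    ext i j
    rw [Matrix.of_apply, Matrix.of_apply]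
    change y0 (s i) (e i j) = (∑ x, a (s i) x • (w x : X → ℝ)) (e i j)
    rw [ha]
  have hex : ∃ t : B × X → ℚ, MvPolynomial.eval (fun z => (t z : ℝ)) P ≠ 0 := by
    by_contra hcon
    push Not at hcon
    apply hP0
    refine MvPolynomial.funext_set (fun _ : B × X => Set.range ((↑) : ℚ → ℝ))
      (fun _ => Set.infinite_range_of_injective Rat.cast_injective) fun x hx => ?_
    have h3 : ∀ z, ∃ r : ℚ, (r : ℝ) = x z := fun z => hx z (Set.mem_univ _)
    choose r hr using h3
    have h4 := hcon r
    rw [map_zero]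
    have h5 : x = fun z => (r z : ℝ) := funext fun z => (hr z).symm
    rw [h5]
    exact h4
  obtain ⟨t, ht⟩ := hex
  rw [heval] at ht
  refine ⟨fun k => ∑ x, t (k, x) • (w x : X → ℝ), fun k =>
    Submodule.sum_mem _ fun x _ => Submodule.smul_mem _ _ (w x).2, ?_⟩
  have h6 : (Matrix.of fun i j : I => (∑ x, t (s i, x) • (w x : X → ℝ)) (e i j)) =
      (Matrix.of fun i j : I => (∑ x, (t (s i, x) : ℝ) • (w x : X → ℝ)) (e i j)) := by
    ext i j
    rw [Matrix.of_apply, Matrix.of_apply, Finset.sum_apply, Finset.sum_apply]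
    refine Finset.sum_congr rfl fun x _ => ?_
    rw [Pi.smul_apply, Pi.smul_apply, Rat.smul_def, smul_eq_mul]
  have h7 : (Matrix.of fun i j : I => (∑ x, t (s i, x) • (w x : X → ℝ)) (e i j)).det ≠ 0 := by
    rw [h6]
    exact ht
  exact h7

/-- **One element for each orbit of places.** -/
theorem zagier_iff_conjugates (hB : HasBorel n F) {B : Type} [Finite B] {b : B → (F →+* ℂ)}
    {s : Idx n F → B} {g : Idx n F → (F ≃ₐ[ℚ] F)} (h : Represents n b s g) :
    Zagier n F ↔ ∃ y : B → (F →+* ℂ) → ℝ, (∀ k, y k ∈ Values n F) ∧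
      Formula n F (conjugates s g y) := by
  classical
  constructor
  · intro hZ
    have hspan := (zagier_iff hB).1 hZ
    obtain ⟨κ, hκp, hκ, hκf, hκv⟩ := hB
    obtain ⟨y, hy, hy0⟩ := exists_rational (Values n F) s
      (fun (i j : Idx n F) => act j.1.embedding (g i)⁻¹) (fun k => base n (b k))
      (fun k => hspan _ (base_parity n (b k))) (base_reg h)
    refine ⟨y, hy, formula_of_mem hκf (fun i => hκv ?_) hy0⟩
    exact values_pull n ((((g i)⁻¹ : F ≃ₐ[ℚ] F)) : F →+* F) (hy (s i))
  · rintro ⟨y, hy, hf⟩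
    exact ⟨_, fun i => values_pull n ((((g i)⁻¹ : F ≃ₐ[ℚ] F)) : F →+* F) (hy (s i)), hf⟩

end Pool.Agent.Q60.ZG
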