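import Pool.Agent.Q60.ZG.Imag

/-! The vanishing of the coefficient of a vector of values for a character depends only on the kernel
of the character. -/

set_option autoImplicit false

namespace Pool.Agent.Q60.ZG

open NumberField Polynomial

variable {n : ℕ} {F : Type} [Field F] [NumberField F]

theorem coeff_pow (hB : HasBorel n F) {A : Subgroup (F ≃ₐ[ℚ] F)} {σ : F →+* ℂ}
    (h : SimplyTransitive n A σ) (χ : A →* ℂˣ) {m : ℕ} (hm : m.Coprime (Nat.card A))
    {w : (F →+* ℂ) → ℝ} (hw : w ∈ Values n F) (h0 : coeff σ χ w = 0) :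
    coeff σ (χ ^ m) w = 0 := by
  classical
  obtain ⟨κ, hκp, hκ, hκf, hκv⟩ := hB
  have h1 : ∀ b : A, ∃ r : Idx n F → ℚ, ∑ j, r j • κ j = fun ρ => w (act ρ b) := fun b =>
    (Submodule.mem_span_range_iff_exists_fun ℚ).1 (hκv (values_act w hw b))
  choose r hr using h1
  have hr' : ∀ (b : A) (ρ : F →+* ℂ), (w (act ρ b) : ℂ) = ∑ j, (r b j : ℂ) * (κ j ρ : ℂ) := by
    intro b ρ
    have h2 := congrFun (hr b) ρ
    rw [Finset.sum_apply] at h2
    rw [← h2]
    push_cast
    refine Finset.sum_congr rfl fun j _ => ?_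
    rw [Pi.smul_apply, Rat.smul_def]
    push_cast
    rfl
  have hN : Nat.card A ≠ 0 := Nat.card_pos.ne'
  set ζ : ℂ := Complex.exp (2 * Real.pi * Complex.I / (Nat.card A : ℕ)) with hζd
  have hζ : IsPrimitiveRoot ζ (Nat.card A) := Complex.isPrimitiveRoot_exp _ hN
  have h2 : ∀ b : A, ∃ e : ℕ, ζ ^ e = (χ b : ℂ) := by
    intro b
    have h3 : ((χ b : ℂˣ) : ℂ) ^ Nat.card A = 1 := by
      rw [← Units.val_pow_eq_pow_val, ← map_pow, pow_card_eq_one', map_one, Units.val_one]
    have hNz : NeZero (Nat.card A) := ⟨hN⟩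
    obtain ⟨e, _, he⟩ := hζ.eq_pow_of_pow_eq_one h3
    exact ⟨e, he⟩
  choose e he using h2
  set P : Idx n F → ℚ[X] := fun j => ∑ b : A, C (r b j) * X ^ (e b) with hP
  have hPz : ∀ (z : ℂ) (j : Idx n F), aeval z (P j) = ∑ b : A, (r b j : ℂ) * z ^ (e b) := by
    intro z j
    rw [hP, map_sum]
    refine Finset.sum_congr rfl fun b _ => ?_
    rw [map_mul, aeval_C, map_pow, aeval_X]
    rfl
  -- the coefficients with respect to the `κ_j` vanish
  set c : Idx n F → ℂ := fun j => ∑ b : A, (χ b : ℂ) * (r b j : ℂ) with hc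
  have hcsum : ∀ a : A, ∑ j, c j * (κ j (act σ a) : ℂ) = 0 := by
    intro a
    have h3 : ∑ j, c j * (κ j (act σ a) : ℂ) = ∑ b : A, (χ b : ℂ) * (w (act (act σ a) b) : ℂ) := by
      simp only [hc, Finset.sum_mul, hr', Finset.mul_sum]
      rw [Finset.sum_comm]
      refine Finset.sum_congr rfl fun b _ => Finset.sum_congr rfl fun j _ => ?_
      ring
    have h4 : ∑ b : A, (χ b : ℂ) * (w (act (act σ a) b) : ℂ) = (χ a : ℂ)⁻¹ * coeff σ χ w := by
      unfold coeff
      rw [Finset.mul_sum]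
      refine Fintype.sum_equiv (Equiv.mulLeft a) _ _ fun b => ?_
      rw [Equiv.coe_mulLeft, act_mul, map_mul, Units.val_mul, ← mul_assoc, ← mul_assoc,
        inv_mul_cancel₀ (Units.ne_zero (χ a)), one_mul]
      rfl
    rw [h3, h4, h0, mul_zero]
  have hreal : ∀ d : Idx n F → ℝ, (∀ a : A, ∑ j, d j * κ j (act σ a) = 0) → ∀ j, d j = 0 := by
    intro d hd
    have h3 : ∑ j, d j • κ j = 0 := by
      apply eq_zero_of_orbit h (Parity.sum _ fun j _ => (hκp j).smul (d j))
      intro a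
      rw [Finset.sum_apply]
      exact hd a
    exact Fintype.linearIndependent_iff.1 (linInd hκ) d h3
  have hc0 : ∀ j, c j = 0 := by
    intro j
    have hre : ∀ a : A, ∑ j, (c j).re * κ j (act σ a) = 0 := by
      intro a
      have h3 := congrArg Complex.re (hcsum a)
      rw [Complex.re_sum, Complex.zero_re] at h3
      rw [← h3]
      refine Finset.sum_congr rfl fun j _ => ?_
      rw [Complex.re_mul_ofReal]
    have him : ∀ a : A, ∑ j, (c j).im * κ j (act σ a) = 0 := by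
      intro a
      have h3 := congrArg Complex.im (hcsum a)
      rw [Complex.im_sum, Complex.zero_im] at h3
      rw [← h3]
      refine Finset.sum_congr rfl fun j _ => ?_
      rw [Complex.im_mul_ofReal]
    exact Complex.ext (hreal (fun j => (c j).re) hre j) (hreal (fun j => (c j).im) him j)
  have hP0 : ∀ j, aeval ζ (P j) = 0 := by
    intro j
    rw [hPz, ← hc0 j, hc]
    refine Finset.sum_congr rfl fun b _ => ?_
    rw [he, mul_comm]
  have hPm : ∀ j, aeval (ζ ^ m) (P j) = 0 := by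
    intro j
    have h3 : minpoly ℚ ζ ∣ P j := minpoly.dvd ℚ ζ (hP0 j)
    have h4 : minpoly ℚ (ζ ^ m) = minpoly ℚ ζ := by
      rw [← cyclotomic_eq_minpoly_rat hζ (Nat.pos_of_ne_zero hN),
        ← cyclotomic_eq_minpoly_rat (hζ.pow_of_coprime m hm) (Nat.pos_of_ne_zero hN)]
    rw [← h4] at h3
    obtain ⟨Q, hQ⟩ := h3
    rw [hQ, map_mul, minpoly.aeval, zero_mul]
  have h5 : coeff σ (χ ^ m) w = ∑ j, (κ j σ : ℂ) * aeval (ζ ^ m) (P j) := by
    unfold coeff
    simp only [hPz, hr', Finset.mul_sum]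
    rw [Finset.sum_comm]
    refine Finset.sum_congr rfl fun j _ => Finset.sum_congr rfl fun b _ => ?_
    have h6 : (((χ ^ m) b : ℂˣ) : ℂ) = (ζ ^ m) ^ (e b) := by
      rw [MonoidHom.pow_apply, Units.val_pow_eq_pow_val, ← he b, ← pow_mul, ← pow_mul, mul_comm]
    rw [h6]
    ring
  rw [h5]
  exact Finset.sum_eq_zero fun j _ => by rw [hPm j, mul_zero]

end Pool.Agent.Q60.ZG
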