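import Pool.Agent.Q60.ZG.Galois

/-! Radical extensions: the functions on the embeddings of `F₀(α_1, …, α_k)`, `α_i ^ N ∈ F₀`, come from
the fields `F₀(∏ α_i ^ m_i)`. -/

set_option autoImplicit false

namespace Pool.Agent.Q60.ZG

open NumberField

variable {n : ℕ} {F : Type} [Field F] [NumberField F]

/-- the intermediate field on which two embeddings agree -/
def eqField (σ σ' : F →+* ℂ) : IntermediateField ℚ F where
  carrier := {x | σ x = σ' x}
  mul_mem' {a b} ha hb := by
    simp only [Set.mem_ofPred_eq] at ha hb ⊢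
    rw [map_mul, map_mul, ha, hb]
  one_mem' := by simp
  add_mem' {a b} ha hb := by
    simp only [Set.mem_ofPred_eq] at ha hb ⊢
    rw [map_add, map_add, ha, hb]
  zero_mem' := by simp
  algebraMap_mem' r := by
    simp only [Set.mem_ofPred_eq]
    rw [eq_ratCast, map_ratCast, map_ratCast]
  inv_mem' a ha := by
    simp only [Set.mem_ofPred_eq] at ha ⊢
    rw [map_inv₀, map_inv₀, ha]

theorem mem_eqField {σ σ' : F →+* ℂ} {x : F} : x ∈ eqField σ σ' ↔ σ x = σ' x := Iff.rfl

/-- the two embeddings agree on `E` -/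
def Agree (E : IntermediateField ℚ F) (σ σ' : F →+* ℂ) : Prop := E ≤ eqField σ σ'

open Classical in
/-- the component of `f` for the element `a` -/
noncomputable def comp (E : IntermediateField ℚ F) (f : (F →+* ℂ) → ℝ) (a : F) :
    (F →+* ℂ) → ℝ := fun σ =>
  (∑ σ' : F →+* ℂ, if Agree E σ' σ then (f σ' : ℂ) * (σ a / σ' a) else 0).re

theorem comp_parity (E : IntermediateField ℚ F) {f : (F →+* ℂ) → ℝ} (hf : Parity n f) (a : F) :
    Parity n (comp E f a) := by
  classical
  intro σ
  unfold comp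
  have h1 : ∑ σ' : F →+* ℂ, (if Agree E σ' (ComplexEmbedding.conjugate σ) then
      (f σ' : ℂ) * (ComplexEmbedding.conjugate σ a / σ' a) else 0) =
      (eps n : ℂ) * (starRingEnd ℂ) (∑ σ' : F →+* ℂ, if Agree E σ' σ then
        (f σ' : ℂ) * (σ a / σ' a) else 0) := by
    rw [map_sum, Finset.mul_sum]
    refine Finset.sum_nbij' (fun σ' => ComplexEmbedding.conjugate σ')
      (fun σ' => ComplexEmbedding.conjugate σ') (fun _ _ => Finset.mem_univ _)
      (fun _ _ => Finset.mem_univ _) (fun σ' _ => ComplexEmbedding.involutive_conjugate F σ')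
      (fun σ' _ => ComplexEmbedding.involutive_conjugate F σ') ?_
    intro σ' _
    have h2 : Agree E σ' (ComplexEmbedding.conjugate σ) ↔
        Agree E (ComplexEmbedding.conjugate σ') σ := by
      constructor
      · intro h x hx
        have h3 := h hx
        rw [mem_eqField] at h3 ⊢
        rw [ComplexEmbedding.conjugate_coe_eq] at h3 ⊢
        rw [h3, Complex.conj_conj]
      · intro h x hx
        have h3 := h hx
        rw [mem_eqField] at h3 ⊢
        rw [ComplexEmbedding.conjugate_coe_eq] at h3 ⊢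
        rw [← h3, Complex.conj_conj]
    by_cases h3 : Agree E σ' (ComplexEmbedding.conjugate σ)
    · rw [if_pos h3, if_pos (h2.1 h3)]
      rw [map_mul, map_div₀, Complex.conj_ofReal, ComplexEmbedding.conjugate_coe_eq,
        ComplexEmbedding.conjugate_coe_eq, Complex.conj_conj, hf σ']
      have h4 : (eps n : ℂ) * eps n = 1 := by
        unfold eps
        split_ifs <;> simp
      push_cast
      rw [← mul_assoc, ← mul_assoc, h4, one_mul]
    · rw [if_neg h3, if_neg (fun h => h3 (h2.2 h)), map_zero, mul_zero]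
  rw [h1, Complex.re_ofReal_mul, Complex.conj_re]

theorem geom (N : ℕ) (u : ℂ) (hu : u ^ N = 1) :
    ∑ j ∈ Finset.range N, u ^ j = if u = 1 then (N : ℂ) else 0 := by
  split_ifs with h
  · rw [h]
    simp
  · rw [geom_sum_eq h, hu, sub_self, zero_div]

/-- **Fourier inversion** -/
theorem comp_sum (E : IntermediateField ℚ F) (f : (F →+* ℂ) → ℝ) {N k : ℕ} (α : Fin k → F)
    (hα : ∀ i, α i ≠ 0 ∧ α i ^ N ∈ E) (htop : E ⊔ IntermediateField.adjoin ℚ (Set.range α) = ⊤)
    (σ : F →+* ℂ) :
    ∑ m ∈ Fintype.piFinset (fun _ : Fin k => Finset.range N), comp E f (∏ i, α i ^ m i) σ =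
      (N : ℝ) ^ k * f σ := by
  classical
  unfold comp
  rw [← Complex.re_sum, Finset.sum_comm]
  have key : ∀ σ' : F →+* ℂ, ∑ m ∈ Fintype.piFinset (fun _ : Fin k => Finset.range N),
      (if Agree E σ' σ then (f σ' : ℂ) * (σ (∏ i, α i ^ m i) / σ' (∏ i, α i ^ m i)) else 0) =
      if σ' = σ then (f σ : ℂ) * (N : ℂ) ^ k else 0 := by
    intro σ'
    by_cases hA : Agree E σ' σ
    · simp only [if_pos hA]
      rw [← Finset.mul_sum]
      have h1 : ∀ m : Fin k → ℕ, σ (∏ i, α i ^ m i) / σ' (∏ i, α i ^ m i) =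
          ∏ i, (σ (α i) / σ' (α i)) ^ m i := by
        intro m
        rw [map_prod, map_prod, ← Finset.prod_div_distrib]
        refine Finset.prod_congr rfl fun i _ => ?_
        rw [map_pow, map_pow, div_pow]
      simp only [h1]
      rw [← Finset.prod_univ_sum (fun _ : Fin k => Finset.range N)
        (fun i j => (σ (α i) / σ' (α i)) ^ j)]
      have h2 : ∀ i, (σ (α i) / σ' (α i)) ^ N = 1 := by
        intro i
        have h3 : σ' (α i ^ N) = σ (α i ^ N) := hA (hα i).2
        rw [div_pow, ← map_pow, ← map_pow, h3, div_self]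
        exact (_root_.map_ne_zero σ).2 (pow_ne_zero _ (hα i).1)
      simp only [fun i => geom N _ (h2 i)]
      by_cases hall : ∀ i, σ (α i) / σ' (α i) = 1
      · have h4 : σ' = σ := by
          have h5 : E ⊔ IntermediateField.adjoin ℚ (Set.range α) ≤ eqField σ' σ := by
            refine sup_le hA ?_
            rw [IntermediateField.adjoin_le_iff]
            rintro _ ⟨i, rfl⟩
            have h6 := hall i
            rw [div_eq_one_iff_eq ((_root_.map_ne_zero σ').2 (hα i).1)] at h6
            exact h6.symm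
          rw [htop] at h5
          ext x
          exact h5 (IntermediateField.mem_top (x := x))
        rw [if_pos h4, h4]
        congr 1
        rw [Finset.prod_congr rfl fun i _ => if_pos (by
          rw [div_self]
          exact (_root_.map_ne_zero σ).2 (hα i).1)]
        simp
      · push Not at hall
        obtain ⟨i, hi⟩ := hall
        have h4 : σ' ≠ σ := by
          rintro rfl
          exact hi (div_self ((_root_.map_ne_zero σ').2 (hα i).1))
        rw [if_neg h4, Finset.prod_eq_zero (Finset.mem_univ i) (if_neg hi), mul_zero]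
    · have h4 : σ' ≠ σ := by
        rintro rfl
        exact hA fun x _ => rfl
      simp only [if_neg hA, if_neg h4, Finset.sum_const_zero]
  rw [Finset.sum_congr rfl fun σ' _ => key σ', Finset.sum_ite_eq' Finset.univ σ,
    if_pos (Finset.mem_univ σ)]
  have h7 : (f σ : ℂ) * (N : ℂ) ^ k = (((N : ℝ) ^ k * f σ : ℝ) : ℂ) := by
    push_cast
    ring
  rw [h7, Complex.ofReal_re]

/-- **Radical extensions.** -/
theorem spanned_radical (n : ℕ) (E : IntermediateField ℚ F) {N k : ℕ} (hN : 0 < N) (α : Fin k → F)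
    (hα : ∀ i, α i ≠ 0 ∧ α i ^ N ∈ E) (htop : E ⊔ IntermediateField.adjoin ℚ (Set.range α) = ⊤) :
    Spanned n F {L | ∃ m : Fin k → ℕ, (∀ i, m i < N) ∧
      L = E ⊔ IntermediateField.adjoin ℚ {∏ i, α i ^ m i}} := by
  classical
  intro f hf
  have h1 : f = ((N : ℝ) ^ k)⁻¹ • ∑ m ∈ Fintype.piFinset (fun _ : Fin k => Finset.range N),
      comp E f (∏ i, α i ^ m i) := by
    funext σ
    rw [Pi.smul_apply, Finset.sum_apply, comp_sum E f α hα htop σ, smul_eq_mul, ← mul_assoc,
      inv_mul_cancel₀ (pow_ne_zero _ (by exact_mod_cast hN.ne')), one_mul]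
  rw [h1]
  refine Submodule.smul_mem _ _ (Submodule.sum_mem _ fun m hm => Submodule.subset_span ?_)
  have hm' : ∀ i, m i < N := fun i => Finset.mem_range.1 (Fintype.mem_piFinset.1 hm i)
  have hE : (E ⊔ IntermediateField.adjoin ℚ {∏ i, α i ^ m i}) ∈ {L : IntermediateField ℚ F |
      ∃ m : Fin k → ℕ, (∀ i, m i < N) ∧ L = E ⊔ IntermediateField.adjoin ℚ {∏ i, α i ^ m i}} :=
    ⟨m, hm', rfl⟩
  refine fromOne_of_agree hE (comp_parity E hf _) ?_
  intro σ σ' hσ
  have h2 : σ (∏ i, α i ^ m i) = σ' (∏ i, α i ^ m i) := by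
    apply hσ
    exact (le_sup_right : IntermediateField.adjoin ℚ {∏ i, α i ^ m i} ≤ _)
      (IntermediateField.mem_adjoin_simple_self ℚ _)
  have h3 : ∀ ρ : F →+* ℂ, Agree E ρ σ ↔ Agree E ρ σ' := by
    intro ρ
    have h4 : ∀ x ∈ E, σ x = σ' x := fun x hx => hσ x ((le_sup_left : E ≤ _) hx)
    constructor
    · intro h x hx
      have h5 := h hx
      rw [mem_eqField] at h5 ⊢
      rw [h5, h4 x hx]
    · intro h x hx
      have h5 := h hx
      rw [mem_eqField] at h5 ⊢
      rw [h5, h4 x hx]
  unfold comp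
  congr 1
  refine Finset.sum_congr rfl fun ρ _ => ?_
  rw [h2]
  by_cases h6 : Agree E ρ σ
  · rw [if_pos h6, if_pos ((h3 ρ).1 h6)]
  · rw [if_neg h6, if_neg (fun h => h6 ((h3 ρ).2 h))]

end Pool.Agent.Q60.ZG
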